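import Pool.Agent.Lib.MP_59b239_al.CJ.Defs

/-!
# The conjugacy problem for automatic groups of cohomological dimension two: definitions
-/

namespace Pool.Agent.Lib.MP59b239.CE

open Pool.Agent.Lib.MP59b239.CJ

/-- The second boundary map `ℤ[G]^m → ℤ[G]^n` of the universal covering of the presentation complex:
the boundary of the `2`-cell `(x, j)` is the path which starts at `x` and reads `rel j`. -/
noncomputable def bdry {G : Type} [Group G] {n m : ℕ} (gen : Fin n → G)
    (rel : Fin m → List (Fin n ⊕ Fin n)) : (G × Fin m →₀ ℤ) →ₗ[ℤ] (G × Fin n →₀ ℤ) :=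
  Finsupp.linearCombination ℤ fun c => path gen c.1 (rel c.2)

/-- The left translation by `x` of a chain. -/
noncomputable def ltr {G : Type} [Group G] {r : ℕ} (x : G) :
    (G × Fin r →₀ ℤ) →ₗ[ℤ] (G × Fin r →₀ ℤ) :=
  Finsupp.lmapDomain ℤ ℤ fun s => (x * s.1, s.2)

/-- `G` has cohomological dimension at most two: the module `im bdry` (which is the kernel of
`ℤ[G]^n → ℤ[G]`, if `⟨gen | rel⟩` is a presentation of `G`) is projective over `ℤ[G]`, i.e. the map
`bdry` has a `G`-equivariant section `s` on its image; `P = s ∘ bdry`. -/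
def CdTwo {G : Type} [Group G] {n m : ℕ} (gen : Fin n → G)
    (rel : Fin m → List (Fin n ⊕ Fin n)) : Prop :=
  ∃ P : (G × Fin m →₀ ℤ) →ₗ[ℤ] (G × Fin m →₀ ℤ), (∀ x c, P (ltr x c) = ltr x (P c)) ∧
    (∀ c, bdry gen rel (P c) = bdry gen rel c) ∧ ∀ c, bdry gen rel c = 0 → P c = 0

end Pool.Agent.Lib.MP59b239.CE
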