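import Pool.Agent.Lib.MP_59b239_al.CT.Basic
import Pool.Agent.Lib.MP_59b239_al.CE.Defs

/-!
# CE: the context for groups of cohomological dimension two
-/

namespace Pool.Agent.Lib.MP59b239.CE

open Pool.Agent.Lib.MP59b239.CJ Pool.Agent.Lib.MP59b239.CT

/-- The data of the quotient of the Cayley complex by the powers of `g`. -/
structure Cy {G : Type} [Group G] {n m : ℕ} (gen : Fin n → G) (rl : Fin m → List (Let n))
    (C ρ : ℕ) (g : G) extends QD gen g where
  /-- the winding number -/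
  ω : (Q × Fin n →₀ ℤ) →ₗ[ℤ] ℤ
  /-- the least length of a loop with a nonzero winding number -/
  l : Q → ℕ
  /-- the distance to the centralizer of `g` -/
  F : Q → ℕ
  g_inf : ∀ k : ℤ, g ^ k = 1 → k = 0
  /-- the module of the canonical `2`-chains -/
  SX : Submodule ℤ (G × Fin m →₀ ℤ)
  /-- the canonical `2`-chains of the quotient -/
  SQ : Submodule ℤ (Q × Fin m →₀ ℤ)
  SX_ltr : ∀ (x : G) (c : G × Fin m →₀ ℤ), c ∈ SX → mp (fun y => x * y) m c ∈ SX
  SX_mp : ∀ c ∈ SX, mp π m c ∈ SQ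
  injX : ∀ c ∈ SX, bd2 (rsh gen) rl c = 0 → c = 0
  inj : ∀ c ∈ SQ, bd2 σ rl c = 0 → c = 0
  iso : ∀ w : List (Let n), ev gen w = 1 → ∃ c ∈ SX,
    bd2 (rsh gen) rl c = chn (rsh gen) 1 w ∧ nrm c ≤ C * (w.length + 1) ^ 2 ∧
    ∀ s, c s ≠ 0 → Rch (rsh gen) (C * (w.length + 1)) 1 s.1
  rel_len : ∀ j, (rl j).length ≤ ρ
  rel_one : ∀ j, ev gen (rl j) = 1
  gens : ∀ x : G, ∃ w : List (Let n), ev gen w = x
  ω_loop : ∀ (x : G) (w : List (Let n)) (k : ℤ), x * ev gen w = g ^ k * x →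
    ω (chn σ (π x) w) = k
  l_pos : ∀ q, 1 ≤ l q
  l_le : ∀ (x : G) (w : List (Let n)) (k : ℤ), k ≠ 0 → x * ev gen w = g ^ k * x →
    l (π x) ≤ w.length
  l_att : ∀ x : G, ∃ (w : List (Let n)) (k : ℕ), 0 < k ∧ x * ev gen w = g ^ k * x ∧
    w.length = l (π x)
  l_stp : ∀ (q : Q) (a : Let n), l (stp σ q a) ≤ l q + 2
  F_stp : ∀ (q : Q) (a : Let n), F (stp σ q a) ≤ F q + 1
  F_one : F (π 1) = 0
  F_com : ∀ z x : G, z * g = g * z → F (π (z * x)) = F (π x)
  F_att : ∀ x : G, ∃ (z : G) (w : List (Let n)), z * g = g * z ∧ x = z * ev gen w ∧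
    w.length = F (π x)

/-! ### The context -/

section Context

variable {G : Type} [Group G] {n m : ℕ} {gen : Fin n → G} {rel : Fin m → List (Let n)}
  {C ρ : ℕ} {g : G} (X : Cy gen rel C ρ g)

/-- Every closed walk of the quotient comes from a loop. -/
theorem Cy.exists_loop (y : G) (w : List (Let n)) (h : wlk X.σ (X.π y) w = X.π y) :
    ∃ k : ℤ, y * ev gen w = g ^ k * y := by
  rw [X.toQD.wlk] at h
  exact (X.rel _ _).mp h.symm

theorem Cy.wlk_loop (y : G) (w : List (Let n)) (k : ℤ) (h : y * ev gen w = g ^ k * y) :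
    wlk X.σ (X.π y) w = X.π y := by
  rw [X.toQD.wlk, h]
  exact ((X.rel _ _).mpr ⟨k, rfl⟩).symm

theorem Cy.wlk_rel (q : X.Q) (j : Fin m) : wlk X.σ q (rel j) = q := by
  obtain ⟨y, rfl⟩ := X.surj q
  exact X.wlk_loop y _ 0 (by rw [X.rel_one]; simp)

theorem Cy.bd1_bd2 (c : X.Q × Fin m →₀ ℤ) : bd1 X.σ (bd2 X.σ rel c) = 0 := by
  induction c using Finsupp.induction_linear with
  | zero => simp
  | add a b ha hb => rw [map_add, map_add, ha, hb, add_zero]
  | single s x => rw [bd2_single, map_smul, bd1_chn, X.wlk_rel, sub_self, smul_zero]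

theorem Cy.ω_bd2 (c : X.Q × Fin m →₀ ℤ) : X.ω (bd2 X.σ rel c) = 0 := by
  induction c using Finsupp.induction_linear with
  | zero => simp
  | add a b ha hb => rw [map_add, map_add, ha, hb, add_zero]
  | single s x =>
    obtain ⟨y, hy⟩ := X.surj s.1
    rw [bd2_single, map_smul, ← hy, X.ω_loop y _ 0 (by rw [X.rel_one]; simp), smul_zero]

theorem Cy.bd1_sl (f : X.Q → ℕ) (t : ℕ) (c : X.Q × Fin m →₀ ℤ) :
    bd1 X.σ (sl X.σ rel f t c) = bd1 X.σ (lo f t (bd2 X.σ rel c)) := by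
  rw [sl, LinearMap.sub_apply, LinearMap.comp_apply, LinearMap.comp_apply, map_sub, X.bd1_bd2,
    sub_zero]

theorem Cy.ω_sl (f : X.Q → ℕ) (t : ℕ) (c : X.Q × Fin m →₀ ℤ) :
    X.ω (sl X.σ rel f t c) = X.ω (lo f t (bd2 X.σ rel c)) := by
  rw [sl, LinearMap.sub_apply, LinearMap.comp_apply, LinearMap.comp_apply, map_sub, X.ω_bd2,
    sub_zero]

/-- Rotation: every vertex of a loop with a nonzero winding number has `l ≤` the length. -/
theorem Cy.l_vertex_le (y : G) (w : List (Let n)) (k : ℤ) (hk : k ≠ 0)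
    (h : y * ev gen w = g ^ k * y) (i : ℕ) (hi : i ≤ w.length) :
    X.l (wlk X.σ (X.π y) (w.take i)) ≤ w.length := by
  rw [X.toQD.wlk]
  have h1 : ev gen w = ev gen (w.take i) * ev gen (w.drop i) := by
    rw [← ev_append, List.take_append_drop]
  have h2 : y * ev gen (w.take i) * ev gen (w.drop i ++ w.take i) =
      g ^ k * (y * ev gen (w.take i)) := by
    rw [ev_append]
    calc y * ev gen (w.take i) * (ev gen (w.drop i) * ev gen (w.take i))
        = (y * (ev gen (w.take i) * ev gen (w.drop i))) * ev gen (w.take i) := by group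
      _ = g ^ k * (y * ev gen (w.take i)) := by rw [← h1, h, mul_assoc]
  have h3 := X.l_le _ _ k hk h2
  rw [List.length_append, List.length_drop, List.length_take] at h3
  omega

end Context

end Pool.Agent.Lib.MP59b239.CE
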