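import Pool.Agent.Lib.MP_59b239_al.CE.Spec
import Pool.Agent.Lib.MP_59b239_al.CD.SUP

/-!
# CE, module SUP: the support lemma for canonical chains
-/

namespace Pool.Agent.Lib.MP59b239.CE

open Pool.Agent.Lib.MP59b239.CJ Pool.Agent.Lib.MP59b239.CT Pool.Agent.Lib.MP59b239.CD

namespace SUPM

open Pool.Agent.Lib.MP59b239.CD.SUPM hiding key

variable {A B : Type} [AddCommGroup A] [AddCommGroup B]

theorem pow_mem (T : Module.End ℤ A) (SX : Submodule ℤ A) (hTS : ∀ x ∈ SX, T x ∈ SX) (k : ℕ) :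
    ∀ x ∈ SX, (T ^ k) x ∈ SX := by
  induction k with
  | zero => intro x hx; simpa using hx
  | succ k ih =>
    intro x hx
    rw [pow_succ, Module.End.mul_apply]
    exact ih _ (hTS x hx)

theorem gs_mem (T : Module.End ℤ A) (SX : Submodule ℤ A) (hTS : ∀ x ∈ SX, T x ∈ SX) (N : ℕ) :
    ∀ x ∈ SX, gs T N x ∈ SX := by
  intro x hx
  rw [gs_apply]
  exact Submodule.sum_mem _ fun i _ => pow_mem T SX hTS i x hx

theorem key (b : A →ₗ[ℤ] B) (SX : Submodule ℤ A) (hb : ∀ x ∈ SX, b x = 0 → x = 0)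
    (T : Module.End ℤ A) (hTS : ∀ x ∈ SX, T x ∈ SX)
    (T' : Module.End ℤ B) (hT : ∀ x, b (T x) = T' (b x)) (k k' : ℕ) (D Bc : A) (hDm : D ∈ SX)
    (hBm : Bc ∈ SX) (e f : B)
    (hD : b D = (1 - T' ^ k') e - (1 - T' ^ k) f)
    (hB : b Bc = gs (T' ^ k) k' e - gs (T' ^ k') k f) :
    gs (T ^ k) k' (gs (T ^ k') k D) = Bc - (T ^ (k * k')) Bc := by
  rw [← sub_eq_zero]
  have hp := pow_mem T SX hTS
  have hg := fun (k N : ℕ) => gs_mem (T ^ k) SX (hp k) N
  apply hb _ (SX.sub_mem (hg k k' _ (hg k' k _ hDm)) (SX.sub_mem hBm (hp _ _ hBm)))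
  have hTk : ∀ (a : ℕ) (x : A), b ((T ^ a) x) = (T' ^ a) (b x) := map_pow' b T T' hT
  rw [map_sub, map_gs b _ _ (hTk k), map_gs b _ _ (hTk k'), map_sub, hTk, hD, hB, sub_eq_zero]
  set M := gs (T' ^ k) k'
  set M' := gs (T' ^ k') k
  have hM : M * (1 - T' ^ k) = 1 - T' ^ (k * k') := by
    rw [pow_mul]; exact gs_mul _ _
  have hM' : M' * (1 - T' ^ k') = 1 - T' ^ (k * k') := by
    rw [mul_comm k k', pow_mul]; exact gs_mul _ _
  have c1 : M * M' = M' * M := commute_gs_gs T' k k' k' k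
  have c2 : M * (1 - T' ^ (k * k')) = (1 - T' ^ (k * k')) * M := by
    have : Commute M (1 - T' ^ (k * k')) := (Commute.one_right M).sub_right (commute_gs T' _ _ _)
    exact this
  have c3 : M' * (1 - T' ^ (k * k')) = (1 - T' ^ (k * k')) * M' := by
    have : Commute M' (1 - T' ^ (k * k')) := (Commute.one_right M').sub_right (commute_gs T' _ _ _)
    exact this
  have e1 : M (M' ((1 - T' ^ k') e)) = (1 - T' ^ (k * k')) (M e) := by
    have : M * (M' * (1 - T' ^ k')) = (1 - T' ^ (k * k')) * M := by rw [hM', c2]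
    exact LinearMap.congr_fun this e
  have e2 : M (M' ((1 - T' ^ k) f)) = (1 - T' ^ (k * k')) (M' f) := by
    have : M * M' * (1 - T' ^ k) = (1 - T' ^ (k * k')) * M' := by
      rw [c1, mul_assoc, hM, c3]
    exact LinearMap.congr_fun this f
  rw [map_sub, map_sub, e1, e2]
  simp only [LinearMap.sub_apply, Module.End.one_apply, map_sub]
  abel

end SUPM

open Pool.Agent.Lib.MP59b239.CD.SUPM RCHM in
theorem specSUP : SpecSUP := by
  intro G _ n m gen rel C ρ g X K₀ k k' y V w w' hK hk hk' hdk hdk' hw hw'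
  set z : G := y * ev gen V with hz
  have hw2 : y * ev gen w = g ^ (k : ℤ) * y := by rw [hw, zpow_natCast]
  have hw2' : z * ev gen w' = g ^ (k' : ℤ) * z := by rw [hw', zpow_natCast]
  -- the conjugated word
  set u : List (Let n) := V ++ w' ++ inv V with hu
  have hu1 : y * ev gen u = g ^ k' * y := by
    rw [hu, ev_append, ev_append, ev_inv]
    calc y * (ev gen V * ev gen w' * (ev gen V)⁻¹) = (z * ev gen w') * (ev gen V)⁻¹ := by
          rw [hz]; group
      _ = g ^ k' * y := by rw [hw', hz]; group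
  have hlp : wlk X.σ (X.π y) w = X.π y := X.wlk_loop y w k hw2
  have hlq : wlk X.σ (X.π z) w' = X.π z := X.wlk_loop z w' k' hw2'
  have hv1 : wlk X.σ (X.π y) V = X.π z := by rw [X.toQD.wlk]
  have hcv : chn X.σ (X.π z) (inv V) = -chn X.σ (X.π y) V := by
    have := chn_inv X.σ (X.π y) V
    rwa [hv1] at this
  have hlq' : wlk X.σ (X.π z) (inv w') = X.π z := by
    have := wlk_inv X.σ (X.π z) w'
    rwa [hlq] at this
  have hcq : chn X.σ (X.π z) (inv w') = -chn X.σ (X.π z) w' := by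
    have := chn_inv X.σ (X.π z) w'
    rwa [hlq] at this
  have hchu : chn X.σ (X.π y) u = chn X.σ (X.π z) w' := by
    rw [hu, chn_append, chn_append, wlk_append, hv1, hlq, hcv]
    abel
  have hlu : wlk X.σ (X.π y) u = X.π y :=
    X.wlk_loop y u k' (by rw [hu1, zpow_natCast])
  -- the filling `D` of the commutator
  obtain ⟨hU1, hU2⟩ := chn_comm gen g y w u k k' hw hu1
  obtain ⟨D₀, hD0, hD1, -, hD3⟩ := X.iso _ hU1
  have hDb : bd2 (rsh gen) rel (mp (fun x => y * x) m D₀) =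
      (1 - tr g n ^ k') (chn (rsh gen) y w) - (1 - tr g n ^ k) (chn (rsh gen) y u) := by
    rw [← ltr_bd2, hD1, ltr_chn, mul_one, hU2]
  have hUl : (w ++ u ++ inv w ++ inv u).length =
      2 * w.length + 2 * w'.length + 4 * V.length := by
    simp only [hu, List.length_append, length_inv]
    ring
  have hDs : ∀ s, mp (fun x => y * x) m D₀ s ≠ 0 →
      Rch (rsh gen) (C * (2 * w.length + 2 * w'.length + 4 * V.length + 1)) y s.1 := by
    intro s hs
    obtain ⟨s', hs', he⟩ := ISRM.exists_of_mp_ne_zero _ _ _ _ hs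
    have h1 := rch_ltr gen _ y _ (hD3 s' hs')
    rw [hUl] at h1
    rw [← he]
    exact h1
  set D := mp (fun x => y * x) m D₀ with hDdef
  -- the filling `B`
  have hevB : ev gen (pw w k' ++ inv (pw u k)) = 1 := by
    have h1 : y * ev gen w ^ k' = g ^ (k * k') * y := mul_pow_eq g y _ k hw k'
    have h2 : y * ev gen u ^ k = g ^ (k' * k) * y := mul_pow_eq g y _ k' hu1 k
    rw [ev_append, ev_inv, ev_pw, ev_pw]
    have h3 : ev gen w ^ k' = ev gen u ^ k := by
      apply mul_left_cancel (a := y)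
      rw [h1, h2, mul_comm k k']
    rw [h3, mul_inv_cancel]
  obtain ⟨B₀, hB0, hB1, -, -⟩ := X.iso _ hevB
  have hwu : wlk (rsh gen) y (pw w k') = g ^ (k * k') * y := by
    rw [wlk_rsh, ev_pw, mul_pow_eq g y _ k hw k']
  have hwu' : wlk (rsh gen) y (pw u k) = g ^ (k * k') * y := by
    rw [wlk_rsh, ev_pw, mul_pow_eq g y _ k' hu1 k, mul_comm k' k]
  have hBb : bd2 (rsh gen) rel (mp (fun x => y * x) m B₀) =
      gs (tr g n ^ k) k' (chn (rsh gen) y w) - gs (tr g n ^ k') k (chn (rsh gen) y u) := by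
    rw [← ltr_bd2, hB1, ltr_chn, mul_one, chn_append, hwu, ← SUPM.chn_pw gen g y w k hw,
      ← SUPM.chn_pw gen g y u k' hu1]
    have := chn_inv (rsh gen) y (pw u k)
    rw [hwu'] at this
    rw [this]
    abel
  set B := mp (fun x => y * x) m B₀ with hBdef
  have hkey := SUPM.key (bd2 (rsh gen) rel) X.SX X.injX (tr g m) (fun x hx => X.SX_ltr g x hx)
    (tr g n) (bd2_tr gen rel g) k k' D B (X.SX_ltr y D₀ hD0) (X.SX_ltr y B₀ hB0) _ _ hDb hBb
  -- the support of `B`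
  have hsupp : ∀ (x : G) (j : Fin m), B (x, j) ≠ 0 → ∃ i : ℤ, D (g ^ i * x, j) ≠ 0 := by
    intro x j hx
    by_contra hc
    push Not at hc
    apply hx
    refine orbit g X.g_inf x j (k * k') (Nat.mul_pos hk hk') B fun i => ?_
    have hv : Van g x j D := hc
    have h1 := (hv.gs k' k).gs k k' i
    rw [hkey, Finsupp.sub_apply, tr_pow_apply] at h1
    have h2 := sub_eq_zero.mp h1
    rw [h2]
  -- the projection of `B`
  set c₁ := mp X.π m B with hc₁
  have hc₁b : bd2 X.σ rel c₁ = (k' : ℤ) • chn X.σ (X.π y) w - (k : ℤ) • chn X.σ (X.π z) w' := by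
    have h1 : bd2 (rsh gen) rel B = chn (rsh gen) y (pw w k' ++ inv (pw u k)) := by
      rw [hBdef, ← ltr_bd2, hB1, ltr_chn, mul_one]
    rw [hc₁, ← X.toQD.mp_bd2, h1, X.toQD.mp_chn, chn_append, wlk_pw X.σ _ _ hlp,
      RCHM.chn_pw X.σ _ _ hlp]
    have h2 := chn_inv X.σ (X.π y) (pw u k)
    rw [wlk_pw X.σ _ _ hlu, RCHM.chn_pw X.σ _ _ hlu, hchu] at h2
    rw [h2]
    abel
  have hc₁s : ∀ s, c₁ s ≠ 0 →
      Rch X.σ (C * (2 * w.length + 2 * w'.length + 4 * V.length + 1)) (X.π y) s.1 := by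
    intro s hs
    obtain ⟨⟨x, j⟩, hx, he⟩ := ISRM.exists_of_mp_ne_zero _ _ _ _ hs
    obtain ⟨i, hi⟩ := hsupp x j hx
    obtain ⟨v, hv, hv2⟩ := hDs _ hi
    refine ⟨v, hv, ?_⟩
    rw [wlk_rsh] at hv2
    rw [X.toQD.wlk, hv2, ← he]
    exact ((X.rel _ _).mpr ⟨i, rfl⟩).symm
  -- the chain `r`
  have hk1 : k * (K₀ / k) = K₀ := Nat.mul_div_cancel' hdk
  have hk2 : k' * (K₀ / k') = K₀ := Nat.mul_div_cancel' hdk'
  obtain ⟨r, hrm, hbr⟩ : ∃ r ∈ X.SQ, bd2 X.σ rel r =
      ((K₀ / k : ℕ) : ℤ) • chn X.σ (X.π y) w - ((K₀ / k' : ℕ) : ℤ) • chn X.σ (X.π z) w' := by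
    have hev : ev gen (pw w (K₀ / k) ++ V ++ pw (inv w') (K₀ / k') ++ inv V) = 1 := by
      have h1 : y * ev gen w ^ (K₀ / k) = g ^ (k * (K₀ / k)) * y := mul_pow_eq g y _ k hw _
      have h2 : z * ev gen w' ^ (K₀ / k') = g ^ (k' * (K₀ / k')) * z :=
        mul_pow_eq g z _ k' hw' _
      rw [hk1] at h1
      rw [hk2] at h2
      have h3 : y * ev gen (pw w (K₀ / k) ++ V ++ pw (inv w') (K₀ / k') ++ inv V) = y * 1 := by
        simp only [ev_append, ev_inv, ev_pw, inv_pow]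
        calc y * (ev gen w ^ (K₀ / k) * ev gen V * (ev gen w' ^ (K₀ / k'))⁻¹ * (ev gen V)⁻¹)
            = (y * ev gen w ^ (K₀ / k)) * ev gen V * (ev gen w' ^ (K₀ / k'))⁻¹ *
              (ev gen V)⁻¹ := by group
          _ = g ^ K₀ * (y * ev gen V) * (ev gen w' ^ (K₀ / k'))⁻¹ * (ev gen V)⁻¹ := by
              rw [h1]; group
          _ = (z * ev gen w' ^ (K₀ / k')) * (ev gen w' ^ (K₀ / k'))⁻¹ * (ev gen V)⁻¹ := by
              rw [h2]
          _ = y * 1 := by rw [hz]; group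
      exact mul_left_cancel h3
    obtain ⟨c, hcm, hb, -, -⟩ := X.iso _ hev
    refine ⟨mp X.π m (mp (fun x => y * x) m c), X.SX_mp _ (X.SX_ltr y c hcm), ?_⟩
    rw [← X.toQD.mp_bd2, ← ltr_bd2, hb, ltr_chn, X.toQD.mp_chn, mul_one]
    simp only [chn_append, wlk_append]
    rw [wlk_pw X.σ _ _ hlp, hv1, wlk_pw X.σ _ _ hlq', RCHM.chn_pw X.σ _ _ hlp,
      RCHM.chn_pw X.σ _ _ hlq', hcq, hcv, smul_neg]
    abel
  have hrel : ((k * k' : ℕ) : ℤ) • r = (K₀ : ℤ) • c₁ := by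
    have h0 : ((k * k' : ℕ) : ℤ) • r - (K₀ : ℤ) • c₁ = 0 := by
      apply X.inj _ (X.SQ.sub_mem (X.SQ.smul_mem _ hrm)
        (X.SQ.smul_mem _ (X.SX_mp _ (X.SX_ltr y B₀ hB0))))
      rw [map_sub, map_smul, map_smul, hc₁b, hbr, smul_sub, smul_sub, smul_smul, smul_smul,
        smul_smul, smul_smul]
      have e1 : ((k * k' : ℕ) : ℤ) * ((K₀ / k : ℕ) : ℤ) = (K₀ : ℤ) * (k' : ℤ) := by
        have : k * k' * (K₀ / k) = K₀ * k' := by
          calc k * k' * (K₀ / k) = (k * (K₀ / k)) * k' := by ring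
            _ = K₀ * k' := by rw [hk1]
        exact_mod_cast this
      have e2 : ((k * k' : ℕ) : ℤ) * ((K₀ / k' : ℕ) : ℤ) = (K₀ : ℤ) * (k : ℤ) := by
        have : k * k' * (K₀ / k') = K₀ * k := by
          calc k * k' * (K₀ / k') = (k' * (K₀ / k')) * k := by ring
            _ = K₀ * k := by rw [hk2]
        exact_mod_cast this
      rw [e1, e2, sub_self]
    exact sub_eq_zero.1 h0
  refine ⟨r, hrm, hbr, fun s hs => hc₁s s fun hc => ?_⟩
  have h1 := DFunLike.congr_fun hrel s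
  rw [Finsupp.smul_apply, Finsupp.smul_apply, hc, smul_zero, smul_eq_mul] at h1
  rcases mul_eq_zero.1 h1 with h | h
  · have : k * k' = 0 := by exact_mod_cast h
    rcases Nat.mul_eq_zero.1 this with h | h <;> omega
  · exact hs h

end Pool.Agent.Lib.MP59b239.CE
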