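import Pool.Agent.Lib.MP_59b239_al.CD.Spec
import Pool.Agent.Lib.MP_59b239_al.CE.Basic

/-!
# The conjugacy problem for automatic groups of cohomological dimension two (CE): the modules

THEOREM CE. Let `G` be automatic over `gen`, with a finite presentation `⟨gen | rel⟩`, and let the
cohomological dimension of `G` be at most two (`CdTwo`, `CE/Defs.lean`). Then the conjugacy problem
of `G` is solvable; if `g = ev p` and `ev q` are conjugate, then `ev q = (ev v)⁻¹ g (ev v)` with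
`|v| ≤ K ^ ((|p| + |q| + 1) ^ 5)`.

IDEA. `P = s ∘ ∂` is a `G`-equivariant projection of the `2`-chains of the Cayley complex `X` (which
need not be aspherical), `∂ P = ∂`, `P = 0` on the cycles. The chains in `SX = im P` are the canonical
ones: they are determined by their boundary, and every boundary is the boundary of a canonical chain,
of comparable norm and support (PNB). The same holds in the quotient `⟨g⟩\X` (INY). With canonical
chains the proof of CD goes through; the modules RGZ, NMA, NMB, PR3, ISR of CD and PHI, CAR, SUM, THN, CLU,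
LWT, LVQ, NMC of CT are used as they are, the others are ported (`Cx` becomes `Cy`).

FORM OF A MODULE: file `CE/XXX.lean`, imports this file, namespace `Pool.Agent.Lib.MP59b239.CE`,
`open Pool.Agent.Lib.MP59b239.CJ Pool.Agent.Lib.MP59b239.CT Pool.Agent.Lib.MP59b239.CD`,
`theorem specXXX (hYYY : SpecYYY) ... : SpecXXX`; auxiliary lemmas in the namespace `XXXM`.
-/

namespace Pool.Agent.Lib.MP59b239.CE

open Pool.Agent.Lib.MP59b239.CJ Pool.Agent.Lib.MP59b239.CT Pool.Agent.Lib.MP59b239.CD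

section

open scoped Classical

/-! ### Part 1: the projection and the context -/

/-- `P` is an equivariant projection (see `CdTwo`), in the notation of `CJ/Basic.lean`. -/
structure IsProj {G : Type} [Group G] {n m : ℕ} (gen : Fin n → G) (rel : Fin m → List (Let n))
    (P : (G × Fin m →₀ ℤ) →ₗ[ℤ] (G × Fin m →₀ ℤ)) : Prop where
  eqv : ∀ (x : G) (c : G × Fin m →₀ ℤ), P (mp (fun y => x * y) m c) = mp (fun y => x * y) m (P c)
  bd : ∀ c, bd2 (rsh gen) rel (P c) = bd2 (rsh gen) rel c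
  ker : ∀ c, bd2 (rsh gen) rel c = 0 → P c = 0

/-- **PRJ**: `CdTwo` in the notation of `CJ/Basic.lean`.

Proof. `bdry gen rel = bd2 (rsh gen) rel` (`path_eq_chn`), and `ltr x` is `mp (x * ·)`
(`Prod.map (x * ·) id` and `fun s => (x * s.1, s.2)` agree). -/
def SpecPRJ : Prop :=
  ∀ (G : Type) [Group G] (n m : ℕ) (gen : Fin n → G) (rel : Fin m → List (Let n)),
    CdTwo gen rel → ∃ P : (G × Fin m →₀ ℤ) →ₗ[ℤ] (G × Fin m →₀ ℤ), IsProj gen rel P

/-- **PNB**: the projection has bounded norm and propagation.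

Proof. `P (single (x, j) a) = a • mp (x * ·) (P (single (1, j) 1))` (`eqv`). Let `B` be the sum over
`j` of `nrm (P (single (1, j) 1))` and of the lengths of words for the first components of the elements
of its support. `nrm_mp_le`, induction on `c` or `c = ∑ s, c s • single s 1`. -/
def SpecPNB : Prop :=
  ∀ (G : Type) [Group G] (n m : ℕ) (gen : Fin n → G) (rel : Fin m → List (Let n)),
    (∀ x : G, ∃ w : List (Let n), ev gen w = x) →
    ∀ P : (G × Fin m →₀ ℤ) →ₗ[ℤ] (G × Fin m →₀ ℤ), IsProj gen rel P →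
      ∃ B : ℕ, ∀ c, nrm (P c) ≤ B * nrm c ∧
        ∀ s, P c s ≠ 0 → ∃ s', c s' ≠ 0 ∧ Rch (rsh gen) B s'.1 s.1

/-- **TOY** (from `CJ.SpecCYC`, `CJ.SpecFRE`): a finitely presented group of cohomological dimension at
most two is torsion free.

Proof. As `CJ/TOR.lean`: there `c₂` with `bd2 c₂ = ν e₁`; replace `c₂` by `P c₂` (`bd`), so that
`g c₂ - c₂ = P (g c₂ - c₂) = 0` (`P (P c) = P c` by `bd`, `ker`; `eqv`; `ker`). The rest is unchanged
(asphericity is used there only for this). -/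
def SpecTOY : Prop :=
  ∀ (G : Type) [Group G] (n m : ℕ) (gen : Fin n → G) (rel : Fin m → List (Let n)),
    Presents gen rel → (∃ P, IsProj gen rel P) → ∀ g : G, g ≠ 1 → ∀ N : ℕ, 0 < N → g ^ N ≠ 1

/-- **INY** (from `CJ.SpecCYC`, `CJ.SpecZFR`): canonical `2`-chains of the quotient are determined by
their boundary.

Proof. As `CJ/INJ.lean`: `e = bd2 c` has `mp D.π n e = 0`, so `e = g e' - e'` with a cycle
`e' = bd2 d`, and `bd2 (c - (g d - d)) = 0`, so `P c = P (g d - d) = g P d - P d` (`ker`, `eqv`), and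
`mp D.π m (P c) = 0`. -/
def SpecINY : Prop :=
  ∀ (G : Type) [Group G] (n m : ℕ) (gen : Fin n → G) (rel : Fin m → List (Let n)),
    Presents gen rel → ∀ P : (G × Fin m →₀ ℤ) →ₗ[ℤ] (G × Fin m →₀ ℤ), IsProj gen rel P →
      ∀ g : G, (∀ k : ℤ, g ^ k = 1 → k = 0) → ∀ (D : QD gen g) (c : G × Fin m →₀ ℤ),
        bd2 D.σ rel (mp D.π m c) = 0 → mp D.π m (P c) = 0

/-- **MKY** (from `CJ.SpecREL`, PRJ, PNB, TOY, INY, `CJ.SpecQUO`, `CD.SpecISR`, `CJ.SpecWND`,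
`CT.SpecLWT`, `CT.SpecLVQ`): the context exists.

Proof. As `CD/MKX.lean`, `CT/MKC.lean`. `SX = LinearMap.range P`, `SQ = SX.map (mp D.π m)`. `P (P c) = P c`
(`ker` for `P c - c`). `injX`: `c = P c'`, `bd2 c = 0`: `0 = P c = P (P c') = c`. `inj`: `c = mp D.π m (P c')`,
INY for `P c'`. `iso`: for `c` from ISR take `P c`; the constant is `C' = C * B + C + B` (norm
`≤ B C (|w| + 1) ^ 2`, radius `≤ C (|w| + 1) + B ≤ C' (|w| + 1)`). -/
def SpecMKY : Prop :=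
  ∀ (G : Type) [Group G] (n m : ℕ) (gen : Fin n → G) (rel : Fin m → List (Let n)),
    Presents gen rel → Automatic gen → CdTwo gen rel → ∃ C ρ : ℕ, ∀ g : G, g ≠ 1 →
      Nonempty (Cy gen rel C ρ g)

/-! ### Part 2: the walk `W` -/

/-- **WGT** (from `CJ.SpecFLW`): the weight of a cycle with a nonzero winding number. As `CD/WGT.lean`. -/
def SpecWGT : Prop :=
  ∀ (G : Type) [Group G] (n m : ℕ) (gen : Fin n → G) (rel : Fin m → List (Let n)) (C ρ : ℕ)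
    (g : G) (X : Cy gen rel C ρ g) (z : X.Q × Fin n →₀ ℤ), bd1 X.σ z = 0 → X.ω z ≠ 0 →
      (1 : ℚ) ≤ ∑ e ∈ z.support, ((z e).natAbs : ℚ) / (X.l e.1 : ℚ)

/-- **COA** (from `CT.SpecCAR`, WGT): the growth of `φ` is bounded by the norm of a `2`-chain. As
`CD/COA.lean`. -/
def SpecCOA : Prop :=
  ∀ (G : Type) [Group G] (n m : ℕ) (gen : Fin n → G) (rel : Fin m → List (Let n)) (C ρ : ℕ)
    (g : G) (X : Cy gen rel C ρ g) (φ : X.Q → ℕ),
    (∀ (v : X.Q) (a : Let n), φ (stp X.σ v a) ≤ φ v + X.l (stp X.σ v a)) →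
    ∀ (c : X.Q × Fin m →₀ ℤ) (γ γ' : X.Q × Fin n →₀ ℤ) (a b : ℕ), bd2 X.σ rel c = γ - γ' →
      bd1 X.σ γ = 0 → X.ω γ ≠ 0 → (∀ e, γ e ≠ 0 → φ e.1 ≤ a) → (∀ e, γ' e ≠ 0 → b ≤ φ e.1) →
      b ≤ a + ρ ^ 2 * (2 * ρ + 1) * nrm c

/-- **CBD** (from COA): the cost of the walk `W`. As `CD/CBD.lean`. -/
def SpecCBD : Prop :=
  ∀ (G : Type) [Group G] (n m : ℕ) (gen : Fin n → G) (rel : Fin m → List (Let n)) (C ρ : ℕ)
    (g : G) (X : Cy gen rel C ρ g) (φ : X.Q → ℕ),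
    (∀ (v : X.Q) (a : Let n), φ (stp X.σ v a) ≤ φ v + X.l (stp X.σ v a)) → φ (X.π 1) = 0 →
    ∀ p q v : List (Let n), ev gen p = g → g * ev gen v = ev gen v * ev gen q →
    ∀ c : X.Q × Fin m →₀ ℤ, bd2 X.σ rel c = chn X.σ (X.π 1) p - chn X.σ (X.π (ev gen v)) q →
      φ (X.π (ev gen v)) ≤ p.length ^ 2 + q.length ^ 2 + ρ ^ 2 * (2 * ρ + 1) * nrm c

/-! ### Part 3: fillings between loops -/

/-- **ANC**: the canonical annulus between two conjugate loops.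

Proof. As `CJ/ANN.lean`, with canonical fillings: `c_N = mp D.π m (filling of W_N) ∈ X.SQ` (`X.iso`,
`X.SX_mp`), `N • c_1 - c_N ∈ X.SQ` has boundary `0`, so `c_N = N • c_1` (`X.inj`). -/
def SpecANC : Prop :=
  ∀ (G : Type) [Group G] (n m : ℕ) (gen : Fin n → G) (rel : Fin m → List (Let n)) (C ρ : ℕ)
    (g : G) (X : Cy gen rel C ρ g) (p q v : List (Let n)), ev gen p = g →
    g * ev gen v = ev gen v * ev gen q →
    ∃ c ∈ X.SQ, bd2 X.σ rel c = chn X.σ (X.π 1) p - chn X.σ (X.π (ev gen v)) q ∧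
      ∀ N : ℕ, 0 < N →
        N * nrm c ≤ C * (N * p.length + N * q.length + 2 * v.length + 1) ^ 2

/-- **SUP**: the support lemma.

Proof (helper17; as `CD/SUP.lean`, all chains canonical: `D`, `B` and `M M' D - (1 - g^(k k')) B` are
in `X.SX` by `X.iso`, `X.SX_ltr`; `r`, `c₁ ∈ X.SQ` by `X.SX_mp`). Let `e = chn y w`, `f = chn y (V w' V⁻¹)` (chains of the Cayley graph) and let `D`
be the filling, at `y`, of the word `w (V w' V⁻¹) w⁻¹ (V w'⁻¹ V⁻¹)`, which is closed because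
`y ev(w) y⁻¹ = g ^ k` and `y ev(V w' V⁻¹) y⁻¹ = g ^ k'` commute: `bd2 D = (1 - g^k') e - (1 - g^k) f`
(left translations `mp (g^i * ·)`). `D` is within `C (2 |w| + 2 |w'| + 4 |V| + 1)` of `y` (`X.iso`,
translated by `y`). Let `B` be a filling of the closed word `w^k' (V w' V⁻¹)^{-k}` at `y`:
`bd2 B = M e - M' f`, `M = ∑ i < k', g^(k i)`, `M' = ∑ i < k, g^(k' i)`. As
`(1 - g^k) M = (1 - g^k') M' = 1 - g^(k k')`, we get `bd2 (M M' D) = (1 - g^(k k')) bd2 B`, so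
`M M' D = (1 - g^(k k')) B` (`X.injX`). If `D` vanishes on the `⟨g⟩`-orbit of a `2`-cell, then `B` is
invariant under `g^(k k')` on this orbit and has finite support, so `B = 0` there (`X.g_inf`). So the
support of `c₁ = mp X.π m B`, whose boundary is `k' • chn (π y) w - k • chn (π (y ev V)) w'`, is in the
projection of the support of `D`. Let `r` be the projection of a filling, at `y`, of the closed
word `w^(K₀/k) V w'^{-(K₀/k')} V⁻¹`; `bd2 (k k' • r) = bd2 (K₀ • c₁)`, so `k k' • r = K₀ • c₁`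
(`X.inj`) and `r` has the same support as `c₁`. (See `CT/RCH.lean` for the chains of powers.) -/
def SpecSUP : Prop :=
  ∀ (G : Type) [Group G] (n m : ℕ) (gen : Fin n → G) (rel : Fin m → List (Let n)) (C ρ : ℕ)
    (g : G) (X : Cy gen rel C ρ g) (K₀ k k' : ℕ) (y : G) (V w w' : List (Let n)),
    0 < K₀ → 0 < k → 0 < k' → k ∣ K₀ → k' ∣ K₀ → y * ev gen w = g ^ k * y →
    (y * ev gen V) * ev gen w' = g ^ k' * (y * ev gen V) →
    ∃ r ∈ X.SQ,
      bd2 X.σ rel r = ((K₀ / k : ℕ) : ℤ) • chn X.σ (X.π y) w -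
        ((K₀ / k' : ℕ) : ℤ) • chn X.σ (X.π (y * ev gen V)) w' ∧
      ∀ s, r s ≠ 0 →
        Rch X.σ (C * (2 * w.length + 2 * w'.length + 4 * V.length + 1)) (X.π y) s.1

/-- A sequence of chains `μ 0, …, μ r` with the winding number `K₀` at the elements `y 0, …, y r`, and
`2`-chains `c j` with the boundary `μ j - μ (j + 1)`, near `y j`. -/
structure Steps {G : Type} [Group G] {n m : ℕ} {gen : Fin n → G} {rel : Fin m → List (Let n)}
    {C ρ : ℕ} {g : G} (X : Cy gen rel C ρ g) (A K₀ : ℕ) where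
  r : ℕ
  y : ℕ → G
  idx : ℕ → ℕ
  μ : ℕ → (X.Q × Fin n →₀ ℤ)
  c : ℕ → (X.Q × Fin m →₀ ℤ)
  K₀_pos : 0 < K₀
  idx_lt : ∀ j < r, idx j < idx (j + 1)
  bd1_μ : ∀ j ≤ r, bd1 X.σ (μ j) = 0
  ω_μ : ∀ j ≤ r, X.ω (μ j) = K₀
  supp_μ : ∀ j ≤ r, ∀ e, μ j e ≠ 0 →
    X.F e.1 ≤ X.F (X.π (y j)) + A ∧ X.F (X.π (y j)) ≤ X.F e.1 + A
  bd2_c : ∀ j < r, bd2 X.σ rel (c j) = μ j - μ (j + 1)
  c_mem : ∀ j < r, c j ∈ X.SQ
  supp_c : ∀ j < r, ∀ s, c j s ≠ 0 →
    Rch X.σ (C * (4 * A + 4 * (idx (j + 1) - idx j) + 1)) (X.π (y j)) s.1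
  rch : ∀ i j, i ≤ j → j ≤ r → Rch X.σ (idx j - idx i) (X.π (y i)) (X.π (y j))
  sep : ∀ i j, i ≤ r → j ≤ r → Rch X.σ (dS C ρ A) (X.π (y i)) (X.π (y j)) →
    idx j ≤ idx i + dD C ρ A

/-- **PTH** (from SUP, `CT.SpecTHN`): the steps along the walk `W`.

Proof. Write `y_i = ev (W.take i)`; `P i` iff `l (π y_i) ≤ A`. `P 0`: `p` is a loop at `1` with
winding number `1`, so `l (π 1) ≤ |p| ≤ A`. `P |W|`: `q` is a loop at `ev W`, `k = 1`:
`π (ev W) = π (ev v)`, so `ev v = g ^ i * ev W`, hence `ev W * ev q = g * ev W`. THN (`N = |W|`) gives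
`r`, `idx`; `r ≥ 1` as `W ≠ []`. `y j := y_{idx j}`. Choose loops `w_j, k_j` (`0 < k_j`, `|w_j| ≤ A`,
`y j * ev w_j = g ^ k_j * y j`) from `X.l_att`, for `j = 0`: `p, 1`, for `j = r`: `q, 1`.
`K₀ = ∏ j ≤ r, k_j`. `μ j := (K₀ / k_j) • chn (π (y j)) w_j`: `bd1 = 0` (`X.wlk_loop`),
`ω = (K₀ / k_j) k_j = K₀`, the edges are within `A` of `π (y j)` (`rch_of_chn_ne_zero`,
`le_add_of_rch`, `Rch.symm`, `X.F_stp`). `c j` from SUP with `V = (W.take (idx (j+1))).drop (idx j)`,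
`|V| = idx (j+1) - idx j`, `y j * ev V = y (j+1)`. `rch`: the subword. `sep`: let `idx i < idx j` and
`w` the walk, `|w| ≤ dS`; all vertices of `w` have `l ≤ l (π (y i)) + 2 |w| ≤ A + 2 dS` (`X.l_stp`), so
`cst w ≤ dS (A + 2 dS) = dD`, and the minimality gives the claim. The sum: THN for `D = A ≥ 1`. -/
def SpecPTH : Prop :=
  ∀ (G : Type) [Group G] (n m : ℕ) (gen : Fin n → G) (rel : Fin m → List (Let n)) (C ρ : ℕ)
    (g : G) (X : Cy gen rel C ρ g) (A τ : ℕ) (p q v W : List (Let n)),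
    ev gen p = g → g * ev gen v = ev gen v * ev gen q → X.π (ev gen W) = X.π (ev gen v) →
    1 ≤ A → p.length ≤ A → q.length ≤ A → 0 < W.length →
    (∀ i i', i ≤ i' → i' ≤ W.length → ∀ w : List (Let n),
      wlk X.σ (X.π (ev gen (W.take i))) w = X.π (ev gen (W.take i')) →
        i' ≤ i + cst X.σ X.l (X.π (ev gen (W.take i))) w) →
    ((Finset.range (W.length + 1)).filter fun i =>
      ¬ X.l (X.π (ev gen (W.take i))) ≤ A).card ≤ τ →
    ∃ (K₀ : ℕ) (S : Steps X A K₀), S.r ≤ W.length ∧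
      X.π (S.y 0) = X.π 1 ∧ X.π (S.y S.r) = X.π (ev gen v) ∧
      S.μ 0 = (K₀ : ℤ) • chn X.σ (X.π 1) p ∧
      S.μ S.r = (K₀ : ℤ) • chn X.σ (X.π (ev gen v)) q ∧
      ∑ j ∈ (Finset.range S.r).filter (fun j => ¬ S.idx (j + 1) ≤ S.idx j + A),
        (S.idx (j + 1) - S.idx j) ≤ 2 * τ

/-! ### Part 4: the levels -/

/-- **LVT** (from RGZ, `CT.SpecCLU`): a good level.

Proof. As `CT/LVT.lean`. `lcl j := idx (j+1) ≤ idx j + A`; `F_j = F (π (y j))`,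
`sl_j = sl X.σ rel X.F t (S.c j)`; `near j := F_j ≤ t + dK ∧ t ≤ F_j + dK`,
`clear j := F_j + A < t ∨ t + A < F_j`, `s j := t < F_j`.
(1) If `clear j` (`j ≤ r`) then `lo X.F t (μ j)` is `μ j` if `¬ s j`, and `0` if `s j`. (2) For
`a ≤ b ≤ r`: `∑_{a ≤ j < b} sl_j = sl (∑ c j)` and `bd2 (∑_{a ≤ j < b} c j) = μ a - μ b`, so if
`clear a`, `clear b`: `ω (∑ sl_j) = ω (lo (μ a)) - ω (lo (μ b))` (`X.ω_sl`). (3) `¬ lcl j`: `j`, `j+1` are
clear and `sl_j = 0`, so by (1), (2), `0 = ω (lo (μ j)) - ω (lo (μ (j+1)))`, and `K₀ > 0` gives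
`s j ↔ s (j+1)`. (4) `lcl j` and `sl_j e ≠ 0` imply `near j` and `Rch (dR + ρ) (π (y j)) e.1`
(`exists_of_sl_ne_zero`, `supp_c`, `4 A + 4 gap + 1 ≤ 8 A + 1`). (5) `lcl j`, `¬ near j`:
`|F_{j+1} - F_j| ≤ A < dK`, so `s j ↔ s (j+1)`. CLU with `D₂ = dD C ρ A` (`≥ A`) gives `a, b, j₀`.
(6) RGZ with `U x := ∃ j, a ≤ j < b, lcl j, near j, Rch (dR + ρ) (π (y j)) x`,
`U' x := ∃ j < r, ¬ (a ≤ j < b), lcl j, near j, Rch (dR + ρ) (π (y j)) x`, `S = ∑_{[a,b)} sl_j`,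
`T = ∑_{not [a,b)} sl_j` (the terms with `¬ lcl j` vanish), `ω S = K₀` by (2), (1). If `U x`, `U' x'`,
`Rch 2 x x'`, then `Rch dS (π (y j)) (π (y i))`, and `sep` contradicts CLU. -/
def SpecLVT : Prop :=
  ∀ (G : Type) [Group G] (n m : ℕ) (gen : Fin n → G) (rel : Fin m → List (Let n)) (C ρ : ℕ)
    (g : G) (X : Cy gen rel C ρ g) (A K₀ : ℕ) (S : Steps X A K₀) (t ν : ℕ)
    (z : X.Q × Fin n →₀ ℤ),
    X.F (X.π (S.y 0)) + dK C ρ A < t → t + dK C ρ A < X.F (X.π (S.y S.r)) →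
    (K₀ : ℤ) • z = ∑ j ∈ Finset.range S.r, sl X.σ rel X.F t (S.c j) → bd1 X.σ z = 0 →
    (∀ j < S.r, ¬ S.idx (j + 1) ≤ S.idx j + A →
      sl X.σ rel X.F t (S.c j) = 0 ∧
      (X.F (X.π (S.y j)) + A < t ∨ t + A < X.F (X.π (S.y j))) ∧
      (X.F (X.π (S.y (j + 1))) + A < t ∨ t + A < X.F (X.π (S.y (j + 1))))) →
    ((Finset.range S.r).filter fun j => X.F (X.π (S.y j)) ≤ t + dK C ρ A ∧
      t ≤ X.F (X.π (S.y j)) + dK C ρ A).card ≤ ν →
    ∃ j₀, j₀ < S.r ∧ X.F (X.π (S.y j₀)) ≤ t + dK C ρ A ∧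
      t ≤ X.F (X.π (S.y j₀)) + dK C ρ A ∧
      ∃ z' : X.Q × Fin n →₀ ℤ, bd1 X.σ z' = 0 ∧ X.ω z' = 1 ∧ nrm z' ≤ nrm z ∧
        ∀ e, z' e ≠ 0 → Rch X.σ (ν * dD C ρ A + dR C A + ρ) (X.π (S.y j₀)) e.1

/-- **VER** (from `CJ.SpecFLW`): a word from a cycle. As `CT/VER.lean`. -/
def SpecVER : Prop :=
  ∀ (G : Type) [Group G] (n m : ℕ) (gen : Fin n → G) (rel : Fin m → List (Let n)) (C ρ : ℕ)
    (g : G) (X : Cy gen rel C ρ g) (y₀ : G) (R : ℕ) (z : X.Q × Fin n →₀ ℤ),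
    bd1 X.σ z = 0 → X.ω z = 1 → (∀ e, z e ≠ 0 → Rch X.σ R (X.π y₀) e.1) →
    ∃ u : List (Let n), u.length ≤ nrm z * (2 * R + 3) ∧ y₀ * ev gen u = g * y₀

/-- **PG2**: the number of levels with a short word. As `CT/PG2.lean`. -/
def SpecPG2 : Prop :=
  ∀ (G : Type) [Group G] (n m : ℕ) (gen : Fin n → G) (rel : Fin m → List (Let n)) (C ρ : ℕ)
    (g : G) (X : Cy gen rel C ρ g) (V R : ℕ) (T : Finset ℕ),
    (∀ t ∈ T, ∃ (y : G) (u : List (Let n)), u.length ≤ V ∧ y * ev gen u = g * y ∧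
      X.F (X.π y) ≤ t + R ∧ t ≤ X.F (X.π y) + R) →
    T.card ≤ (2 * R + 1) * (2 * n + 1) ^ V

/-- **TOT** (from `CT.SpecSUM`, LVT, VER, PG2): the number of levels.

Proof. As `CT/TOT.lean`. Write `κ = dK C ρ A`. Let `T` be the set of the `t` with `a + κ < t`,
`t + κ < b`; we may assume `b > a + 2 κ + 1`, `|T| = b - a - 2 κ - 1`. For `t ∈ T` let
`z_t = sl X.σ rel X.F t c`. By `X.inj`, `∑_{j < r} c j = K₀ • c` (both in `X.SQ`, `c_mem`; telescoping, `bd2_c`), so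
`K₀ • z_t = ∑_j sl_t (c j)`. `lo X.F t (γ - γ') = γ`, so `bd1 z_t = bd1 γ = 0`. `Ba`: the number of the
`t ∈ T` with `nrm z_t > L`: `(L + 1) Ba ≤ ρ ^ 2 nrm c` (SUM). `Bd`: the number of the `t ∈ T` with more
than `ν` near `j < r`: `(ν + 1) Bd ≤ (2 κ + 1) r`. For a long `j` (gap `d = idx (j+1) - idx j > A`) the
`t` with `sl_t (c j) ≠ 0` satisfy `|F_j - t| ≤ C (4 A + 4 d + 1) + ρ ≤ 8 C d + ρ`
(`exists_of_sl_ne_zero`, `supp_c`, `le_add_of_rch`), at most `(16 C + 2 ρ + 1) d` of them, and the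
`t` for which `j` or `j + 1` is not clear (`|F - t| ≤ A`) are at most `2 (2 A + 1) ≤ 4 d`. So the
number of the `t` excluded by long steps is `≤ (16 C + 2 ρ + 5) * ∑ d ≤ (32 C + 4 ρ + 10) τ`. For the
other `t ∈ T` LVT applies and gives `y = S.y j₀` and `z'`, and VER (`R = ν dD + dR + ρ`) a word `u`,
`|u| ≤ nrm z' (2 R + 3) ≤ L (2 R + 3)`; by PG2 their number is
`≤ (2 κ + 1) (2 n + 1) ^ (L (2 R + 3))`. -/
def SpecTOT : Prop :=
  ∀ (G : Type) [Group G] (n m : ℕ) (gen : Fin n → G) (rel : Fin m → List (Let n)) (C ρ : ℕ)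
    (g : G) (X : Cy gen rel C ρ g) (A K₀ : ℕ) (S : Steps X A K₀)
    (c : X.Q × Fin m →₀ ℤ) (γ γ' : X.Q × Fin n →₀ ℤ) (a b τ : ℕ),
    1 ≤ A → c ∈ X.SQ → S.μ 0 = (K₀ : ℤ) • γ → S.μ S.r = (K₀ : ℤ) • γ' → bd2 X.σ rel c = γ - γ' →
    bd1 X.σ γ = 0 → (∀ e, γ e ≠ 0 → X.F e.1 ≤ a) → (∀ e, γ' e ≠ 0 → b ≤ X.F e.1) →
    X.F (X.π (S.y 0)) ≤ a → b ≤ X.F (X.π (S.y S.r)) →
    ∑ j ∈ (Finset.range S.r).filter (fun j => ¬ S.idx (j + 1) ≤ S.idx j + A),
      (S.idx (j + 1) - S.idx j) ≤ 2 * τ →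
    ∀ L ν : ℕ, ∃ Ba Bd : ℕ, (L + 1) * Ba ≤ ρ ^ 2 * nrm c ∧
      (ν + 1) * Bd ≤ (2 * dK C ρ A + 1) * S.r ∧
      b ≤ a + 2 * dK C ρ A + 1 + Ba + (32 * C + 4 * ρ + 10) * τ + Bd +
        (2 * dK C ρ A + 1) * (2 * n + 1) ^ (L * (2 * (ν * dD C ρ A + dR C A + ρ) + 3))

/-- **BNT** (from ANC, `CT.SpecPHI`, CBD, PTH, TOT): the inequalities hold.

Proof. `c ∈ X.SQ` from ANC, `nrm c` satisfies the first inequality (`N |p| + N |q| = N l`).
PHI for `X.Q`, `X.l`, `v₀ = π 1` (connected: `X.surj`, `X.gens`, `QD.wlk`) gives `φ` and `W` with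
`π (ev W) = wlk (π 1) W = π (ev v)`, `cst W = φ (π (ev v)) ≤ Λ₀ := |p| ^ 2 + |q| ^ 2 + ρ ^ 2 (2 ρ + 1) nrm c`
(CBD). `|W| ≤ cst W` (`length_le_cst`), and `W ≠ []` because `F (π (ev v)) = |v| > 0 = F (π 1)`.
`l (π 1) ≤ |p|` (`X.l_le`), so the sum of `l (π (ev (W.take i)))` over `i ≤ |W|` is `≤ |p| + Λ₀ ≤
(l + 1) ^ 2 + ρ ^ 2 (2 ρ + 1) nrm c`. Let `τ` be the number of the `i ≤ |W|` with `l (…) > A`; the sum
is `≥ A τ`. PTH gives `S`, TOT with `γ = chn (π 1) p`, `γ' = chn (π (ev v)) q`, `a = |p|`,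
`b = |v| - |q|` (edges of `γ` have `F ≤ |p|`, those of `γ'` have `F ≥ F (π (ev v)) - |q|`:
`rch_of_chn_ne_zero`, `le_add_of_rch`) gives the rest, as `S.r ≤ |W| ≤ Λ₀`. -/
def SpecBNT : Prop :=
  ∀ (G : Type) [Group G] (n m : ℕ) (gen : Fin n → G) (rel : Fin m → List (Let n)) (C ρ : ℕ)
    (g : G) (X : Cy gen rel C ρ g) (p q v : List (Let n)),
    ev gen p = g → g * ev gen v = ev gen v * ev gen q → v.length = X.F (X.π (ev gen v)) →
    0 < v.length → NumHyp C ρ n (p.length + q.length) v.length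

/-- **CBT** (from MKY, BNT, `CD.SpecNMA`, `CD.SpecNMB`): the length of a conjugator.

Proof. `C, ρ` from MKY, `K` from NMB for `C, ρ, n`. `g = ev p`, `ev q = x⁻¹ g x` (`isConj_iff`). If `g = 1`
then `ev q = 1` and `v = []`. Otherwise `X` from MKY. `X.F_att`: `x = z * ev v`, `z g = g z`,
`|v| = F (π x) = F (π (ev v))` (`X.F_com`), and `(ev v)⁻¹ g (ev v) = x⁻¹ z g z⁻¹ x = ev q`. If `|v| = 0`
trivial; otherwise BNT, and NMA if `l ≤ |v|`; if `|v| < l` then `|v| ≤ l ≤ dM …` directly. -/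
def SpecCBT : Prop :=
  ∀ (G : Type) [Group G] (n m : ℕ) (gen : Fin n → G) (rel : Fin m → List (Let n)),
    Presents gen rel → Automatic gen → CdTwo gen rel →
    ∃ K : ℕ, ∀ p q : List (Let n), IsConj (ev gen p) (ev gen q) →
      ∃ v : List (Let n), v.length ≤ K ^ ((p.length + q.length + 1) ^ 5) ∧
        (ev gen v)⁻¹ * ev gen p * ev gen v = ev gen q

/-- The theorem. -/
def SpecMAIN4 : Prop :=
  ∀ (G : Type) [Group G] (n m : ℕ) (gen : Fin n → G) (rel : Fin m → List (Let n)),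
    Presents gen rel → Automatic gen → CdTwo gen rel →
    (ComputablePred fun p : List (Let n) × List (Let n) =>
      IsConj (ev gen p.1) (ev gen p.2)) ∧
    ∃ K : ℕ, ∀ p q : List (Let n), IsConj (ev gen p) (ev gen q) →
      ∃ v : List (Let n), v.length ≤ K ^ ((p.length + q.length + 1) ^ 5) ∧
        (ev gen v)⁻¹ * ev gen p * ev gen v = ev gen q

theorem specMAIN4 (hCBT : SpecCBT) (hWPC : SpecWPC) (hPR3 : SpecPR3) : SpecMAIN4 := by
  intro G _ n m gen rel hp ha has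
  obtain ⟨K, hK⟩ := hCBT G n m gen rel hp ha has
  exact ⟨hPR3 G n gen (hWPC G n gen ha) K hK, K, hK⟩

end

end Pool.Agent.Lib.MP59b239.CE
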