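import Pool.Agent.Lib.MP_59b239_al.CE.Spec
import Pool.Agent.Lib.MP_59b239_al.CJ.ZFR

section
/-! # ANC: the canonical annulus between two conjugate loops -/
namespace Pool.Agent.Lib.MP59b239.CE

open Pool.Agent.Lib.MP59b239.CJ Pool.Agent.Lib.MP59b239.CT Pool.Agent.Lib.MP59b239.CD

namespace ANCM

/-- the power of a word -/
def pw {n : ℕ} (w : List (Let n)) : ℕ → List (Let n)
  | 0 => []
  | N + 1 => w ++ pw w N

theorem length_pw {n : ℕ} (w : List (Let n)) (N : ℕ) : (pw w N).length = N * w.length := by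
  induction N with
  | zero => simp [pw]
  | succ N ih => rw [pw, List.length_append, ih]; ring

theorem ev_pw {G : Type} [Group G] {n : ℕ} (gen : Fin n → G) (w : List (Let n)) (N : ℕ) :
    ev gen (pw w N) = ev gen w ^ N := by
  induction N with
  | zero => simp [pw]
  | succ N ih => rw [pw, ev_append, ih, pow_succ']

section

variable {V : Type} {n : ℕ} (σ : Fin n → Equiv.Perm V)

theorem wlk_pw (a : V) (w : List (Let n)) (h : wlk σ a w = a) (N : ℕ) :
    wlk σ a (pw w N) = a := by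
  induction N with
  | zero => rfl
  | succ N ih => rw [pw, wlk_append, h, ih]

theorem chn_pw (a : V) (w : List (Let n)) (h : wlk σ a w = a) (N : ℕ) :
    chn σ a (pw w N) = (N : ℤ) • chn σ a w := by
  induction N with
  | zero => simp [pw, chn]
  | succ N ih =>
    rw [pw, chn_append, h, ih]
    push_cast
    rw [add_smul, one_smul]; abel

end

end ANCM

open ANCM in
theorem specANC : SpecANC := by
  intro G _ n m gen rel C ρ g X p q v hp hc
  -- the words
  set W : ℕ → List (Let n) := fun N => pw p N ++ v ++ pw (inv q) N ++ inv v with hW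
  have hcN : ∀ N : ℕ, g ^ N * ev gen v = ev gen v * ev gen q ^ N := by
    intro N
    induction N with
    | zero => simp
    | succ N ih => rw [pow_succ', mul_assoc, ih, ← mul_assoc, hc, mul_assoc, ← pow_succ']
  have hevW : ∀ N, ev gen (W N) = 1 := by
    intro N
    simp only [hW, ev_append, ev_inv, ev_pw, hp]
    rw [hcN N, inv_pow, mul_inv_cancel_right, mul_inv_cancel]
  have hlen : ∀ N, (W N).length = N * p.length + N * q.length + 2 * v.length := by
    intro N
    simp only [hW, List.length_append, length_pw, length_inv]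
    ring
  -- the loops in the quotient
  have hπg : ∀ x : G, X.π (g * x) = X.π x := fun x =>
    ((X.rel x (g * x)).2 ⟨1, by simp⟩).symm
  have hlp : wlk X.σ (X.π 1) p = X.π 1 := by
    rw [X.toQD.wlk, one_mul, hp]
    have := hπg 1
    rwa [mul_one] at this
  have hlq : wlk X.σ (X.π (ev gen v)) q = X.π (ev gen v) := by
    rw [X.toQD.wlk, ← hc, hπg]
  have hlq' : wlk X.σ (X.π (ev gen v)) (inv q) = X.π (ev gen v) := by
    have := wlk_inv X.σ (X.π (ev gen v)) q
    rwa [hlq] at this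
  have hcq : chn X.σ (X.π (ev gen v)) (inv q) = -chn X.σ (X.π (ev gen v)) q := by
    have := chn_inv X.σ (X.π (ev gen v)) q
    rwa [hlq] at this
  have hv1 : wlk X.σ (X.π 1) v = X.π (ev gen v) := by rw [X.toQD.wlk, one_mul]
  have hchW : ∀ N : ℕ, chn X.σ (X.π 1) (W N) =
      (N : ℤ) • (chn X.σ (X.π 1) p - chn X.σ (X.π (ev gen v)) q) := by
    intro N
    have hcv : chn X.σ (X.π (ev gen v)) (inv v) = -chn X.σ (X.π 1) v := by
      have := chn_inv X.σ (X.π 1) v
      rwa [hv1] at this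
    simp only [hW, chn_append, wlk_append]
    rw [wlk_pw X.σ _ _ hlp, hv1, wlk_pw X.σ _ _ hlq', chn_pw X.σ _ _ hlp,
      chn_pw X.σ _ _ hlq', hcq, hcv, smul_sub, smul_neg]
    abel
  -- the canonical fillings
  have hfN : ∀ N : ℕ, ∃ c ∈ X.SQ,
      bd2 X.σ rel c = (N : ℤ) • (chn X.σ (X.π 1) p - chn X.σ (X.π (ev gen v)) q) ∧
      nrm c ≤ C * (N * p.length + N * q.length + 2 * v.length + 1) ^ 2 := by
    intro N
    obtain ⟨c, hcX, hb, hn, -⟩ := X.iso (W N) (hevW N)
    refine ⟨mp X.π m c, X.SX_mp c hcX, ?_, (nrm_mp_le _ _ _).trans ?_⟩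
    · rw [← X.toQD.mp_bd2, hb, X.toQD.mp_chn, hchW]
    · rw [hlen] at hn; exact hn
  obtain ⟨c, hcS, hb, -⟩ := hfN 1
  rw [Nat.cast_one, one_smul] at hb
  refine ⟨c, hcS, hb, fun N _ => ?_⟩
  obtain ⟨cN, hcNS, hbN, hnN⟩ := hfN N
  have h0 : (N : ℤ) • c - cN = 0 := by
    apply X.inj _ (X.SQ.sub_mem (X.SQ.smul_mem _ hcS) hcNS)
    rw [map_sub, map_smul, hb, hbN, sub_self]
  have h1 : (N : ℤ) • c = cN := sub_eq_zero.1 h0
  have h2 := nrm_smul (N : ℤ) c
  rw [h1, Int.natAbs_natCast] at h2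
  rw [← h2]
  exact hnN

end Pool.Agent.Lib.MP59b239.CE
end

section
/-!
# CE, BNT: the inequalities hold
-/
namespace Pool.Agent.Lib.MP59b239.CE

open Pool.Agent.Lib.MP59b239.CJ Pool.Agent.Lib.MP59b239.CT Pool.Agent.Lib.MP59b239.CD

namespace BNTM

/-- The sum of `l` over all the vertices of a walk. -/
theorem sum_take {V : Type} {n : ℕ} (σ : Fin n → Equiv.Perm V) (l : V → ℕ) (v : V)
    (w : List (Let n)) :
    ∑ i ∈ Finset.range (w.length + 1), l (wlk σ v (w.take i)) = l v + cst σ l v w := by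
  induction w generalizing v with
  | nil => simp [wlk, cst]
  | cons a w ih =>
    rw [List.length_cons, Finset.sum_range_succ']
    have h1 : ∀ i, wlk σ v ((a :: w).take (i + 1)) = wlk σ (stp σ v a) (w.take i) := by
      intro i
      rw [List.take_succ_cons]
      rfl
    simp only [h1]
    rw [ih]
    simp only [List.take_zero, wlk, cst]
    omega

end BNTM

theorem specBNT (hANC : SpecANC) (hPHI : SpecPHI) (hCBD : SpecCBD)
    (hPTH : SpecPTH) (hTOT : SpecTOT) : SpecBNT := by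
  classical
  intro G _ n m gen rel C ρ g X p q v hp hv hlen hpos
  obtain ⟨c, hcm, hc, hcN⟩ := hANC G n m gen rel C ρ g X p q v hp hv
  obtain ⟨φ, hφ, hφ0, hφW⟩ := hPHI X.Q n X.σ X.l (X.π 1) X.l_pos (by
    intro u
    obtain ⟨x, rfl⟩ := X.surj u
    obtain ⟨w, hw⟩ := X.gens x
    exact ⟨w, by rw [X.toQD.wlk, one_mul, hw]⟩)
  obtain ⟨W, hW, hWc, hWm⟩ := hφW (X.π (ev gen v))
  have hwt : ∀ i, wlk X.σ (X.π 1) (W.take i) = X.π (ev gen (W.take i)) := fun i => by
    rw [X.toQD.wlk, one_mul]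
  have hπW : X.π (ev gen W) = X.π (ev gen v) := by rw [← hW, X.toQD.wlk, one_mul]
  have hCB := hCBD G n m gen rel C ρ g X φ hφ hφ0 p q v hp hv c hc
  have hWl : W.length ≤ cst X.σ X.l (X.π 1) W := length_le_cst X.σ X.l X.l_pos _ _
  have hWpos : 0 < W.length := by
    rcases Nat.eq_zero_or_pos W.length with h | h
    · exfalso
      have h1 : W = [] := List.length_eq_zero_iff.mp h
      rw [h1, ev_nil] at hπW
      have h2 := X.F_one
      rw [hπW, ← hlen] at h2
      omega
    · exact h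
  have hLp : (1 : G) * ev gen p = g ^ (1 : ℤ) * 1 := by rw [one_mul, zpow_one, mul_one, hp]
  have hl1 : X.l (X.π 1) ≤ p.length := X.l_le 1 p 1 one_ne_zero hLp
  have hsum : ∑ i ∈ Finset.range (W.length + 1), X.l (X.π (ev gen (W.take i))) ≤
      (p.length + q.length + 1) ^ 2 + ρ ^ 2 * (2 * ρ + 1) * nrm c := by
    have h1 := BNTM.sum_take X.σ X.l (X.π 1) W
    simp only [hwt] at h1
    rw [h1, hWc]
    have h2 : p.length + (p.length ^ 2 + q.length ^ 2) ≤ (p.length + q.length + 1) ^ 2 := by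
      nlinarith [Nat.zero_le (p.length * q.length)]
    omega
  have hΛ : W.length ≤ (p.length + q.length + 1) ^ 2 + ρ ^ 2 * (2 * ρ + 1) * nrm c := by
    have h2 : p.length ^ 2 + q.length ^ 2 ≤ (p.length + q.length + 1) ^ 2 := by
      nlinarith [Nat.zero_le (p.length * q.length)]
    rw [hWc] at hWl
    omega
  have hwp : wlk X.σ (X.π 1) p = X.π 1 := X.wlk_loop 1 p 1 hLp
  refine ⟨nrm c, fun N hN => ?_, fun A hA hA1 => ?_⟩
  · have h1 := hcN N hN
    rwa [← Nat.mul_add] at h1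
  have hA2 : p.length + q.length ≤ A := hA
  refine ⟨((Finset.range (W.length + 1)).filter fun i =>
    ¬ X.l (X.π (ev gen (W.take i))) ≤ A).card, ?_, fun L ν => ?_⟩
  · refine le_trans ?_ hsum
    calc A * ((Finset.range (W.length + 1)).filter fun i =>
          ¬ X.l (X.π (ev gen (W.take i))) ≤ A).card
        = ∑ i ∈ (Finset.range (W.length + 1)).filter (fun i =>
            ¬ X.l (X.π (ev gen (W.take i))) ≤ A), A := by
          rw [Finset.sum_const, smul_eq_mul, mul_comm]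
      _ ≤ ∑ i ∈ (Finset.range (W.length + 1)).filter (fun i =>
            ¬ X.l (X.π (ev gen (W.take i))) ≤ A), X.l (X.π (ev gen (W.take i))) :=
          Finset.sum_le_sum fun i hi => by
            have := (Finset.mem_filter.mp hi).2
            omega
      _ ≤ ∑ i ∈ Finset.range (W.length + 1), X.l (X.π (ev gen (W.take i))) :=
          Finset.sum_le_sum_of_subset (Finset.filter_subset _ _)
  obtain ⟨K₀, S, hSr, hS0, hS1, hμ0, hμ1, hSs⟩ := hPTH G n m gen rel C ρ g X A _
    p q v W hp hv hπW hA1 (by omega) (by omega) hWpos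
    (by
      intro i i' hii hi' w hw
      have h1 := hWm i i' hii hi' w (by rw [hwt, hwt]; exact hw)
      rwa [hwt] at h1)
    (le_refl _)
  obtain ⟨Ba, Bd, h1, h2, h3⟩ := hTOT G n m gen rel C ρ g X A K₀ S c
    (chn X.σ (X.π 1) p) (chn X.σ (X.π (ev gen v)) q) p.length (v.length - q.length) _ hA1 hcm hμ0 hμ1
    hc (by rw [bd1_chn, hwp, sub_self])
    (by
      intro e he
      have h4 := le_add_of_rch X.σ X.F 1 X.F_stp (rch_of_chn_ne_zero X.σ _ _ e he)
      rw [X.F_one] at h4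
      omega)
    (by
      intro e he
      have h4 := le_add_of_rch X.σ X.F 1 X.F_stp (rch_of_chn_ne_zero X.σ _ _ e he).symm
      rw [← hlen] at h4
      omega)
    (by rw [hS0, X.F_one]; exact Nat.zero_le _)
    (by rw [hS1, ← hlen]; exact Nat.sub_le _ _)
    hSs L ν
  refine ⟨Ba, Bd, h1, h2.trans (Nat.mul_le_mul_left _ (hSr.trans hΛ)), ?_⟩
  have h5 : v.length ≤ q.length + (v.length - q.length) := by omega
  refine h5.trans ((Nat.add_le_add_left h3 q.length).trans (le_of_eq ?_))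
  ring

end Pool.Agent.Lib.MP59b239.CE
end

section
/-!
# CE, CBD: the cost of the walk
-/
namespace Pool.Agent.Lib.MP59b239.CE

open Pool.Agent.Lib.MP59b239.CJ Pool.Agent.Lib.MP59b239.CT Pool.Agent.Lib.MP59b239.CD

namespace CBDM

/-- The growth of `φ` along a walk all of whose vertices have `l ≤ B`. -/
theorem phi_take {V : Type} {n : ℕ} (σ : Fin n → Equiv.Perm V) (φ l : V → ℕ)
    (hφ : ∀ (v : V) (a : Let n), φ (stp σ v a) ≤ φ v + l (stp σ v a)) (v : V) (w : List (Let n))
    (B : ℕ) (hB : ∀ i ≤ w.length, l (wlk σ v (w.take i)) ≤ B) (i j : ℕ) (hij : i ≤ j)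
    (hj : j ≤ w.length) :
    φ (wlk σ v (w.take j)) ≤ φ (wlk σ v (w.take i)) + (j - i) * B := by
  induction j, hij using Nat.le_induction with
  | base => simp
  | succ j hij ih =>
    have h1 := ih (by omega)
    have h2 : wlk σ v (w.take (j + 1)) = stp σ (wlk σ v (w.take j)) (w[j]'(by omega)) := by
      rw [List.take_succ_eq_append_getElem (by omega), wlk_append]
      rfl
    have h3 := hφ (wlk σ v (w.take j)) (w[j]'(by omega))
    have h4 := hB (j + 1) hj
    rw [h2] at h4 ⊢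
    have h5 : j + 1 - i = (j - i) + 1 := by omega
    rw [h5, add_mul, one_mul]
    omega

end CBDM

theorem specCBD (hCOA : SpecCOA) : SpecCBD := by
  intro G _ n m gen rel C ρ g X φ hφ hφ0 p q v hp hv c hc
  have hLp : (1 : G) * ev gen p = g ^ (1 : ℤ) * 1 := by rw [one_mul, zpow_one, mul_one, hp]
  have hLq : ev gen v * ev gen q = g ^ (1 : ℤ) * ev gen v := by rw [zpow_one, hv]
  have hwp : wlk X.σ (X.π 1) p = X.π 1 := X.wlk_loop 1 p 1 hLp
  have hwq : wlk X.σ (X.π (ev gen v)) q = X.π (ev gen v) := X.wlk_loop _ q 1 hLq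
  have hb : bd1 X.σ (chn X.σ (X.π 1) p) = 0 := by rw [bd1_chn, hwp, sub_self]
  have hω : X.ω (chn X.σ (X.π 1) p) = 1 := X.ω_loop 1 p 1 hLp
  have hBp : ∀ i ≤ p.length, X.l (wlk X.σ (X.π 1) (p.take i)) ≤ p.length := fun i hi =>
    X.l_vertex_le 1 p 1 one_ne_zero hLp i hi
  have hBq : ∀ i ≤ q.length, X.l (wlk X.σ (X.π (ev gen v)) (q.take i)) ≤ q.length := fun i hi =>
    X.l_vertex_le _ q 1 one_ne_zero hLq i hi
  have h1 := hCOA G n m gen rel C ρ g X φ hφ c (chn X.σ (X.π 1) p)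
    (chn X.σ (X.π (ev gen v)) q) (p.length ^ 2) (φ (X.π (ev gen v)) - q.length ^ 2) hc hb
    (by rw [hω]; exact one_ne_zero)
    (by
      intro e he
      obtain ⟨⟨i, hi, hie⟩, -⟩ := exists_take_of_chn_ne_zero X.σ _ _ e he
      have h2 := CBDM.phi_take X.σ φ X.l hφ (X.π 1) p p.length hBp 0 i (Nat.zero_le _) hi
      rw [hie] at h2
      have h3 : φ (wlk X.σ (X.π 1) (p.take 0)) = 0 := by
        rw [List.take_zero]
        exact hφ0
      have h4 : (i - 0) * p.length ≤ p.length ^ 2 := by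
        rw [sq, Nat.sub_zero]
        exact Nat.mul_le_mul_right _ hi
      omega)
    (by
      intro e he
      obtain ⟨⟨i, hi, hie⟩, -⟩ := exists_take_of_chn_ne_zero X.σ _ _ e he
      have h2 := CBDM.phi_take X.σ φ X.l hφ (X.π (ev gen v)) q q.length hBq i q.length hi le_rfl
      rw [hie, List.take_length, hwq] at h2
      have h4 : (q.length - i) * q.length ≤ q.length ^ 2 := by
        rw [sq]
        exact Nat.mul_le_mul_right _ (Nat.sub_le _ _)
      omega)
  omega

end Pool.Agent.Lib.MP59b239.CE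
end

section
/-!
# CE, CBT: the length of a conjugator (port of CD, CBT by helper99)
-/
namespace Pool.Agent.Lib.MP59b239.CE

open Pool.Agent.Lib.MP59b239.CJ Pool.Agent.Lib.MP59b239.CT Pool.Agent.Lib.MP59b239.CD

theorem specCBT (hMKY : SpecMKY) (hBNT : SpecBNT) (hNMA : CD.SpecNMA) (hNMB : CD.SpecNMB) :
    SpecCBT := by
  intro G _ n m gen rel hp ha has
  obtain ⟨C, ρ, hX⟩ := hMKY G n m gen rel hp ha has
  obtain ⟨K, hK⟩ := hNMB C ρ n
  refine ⟨K, fun p q hc => ?_⟩
  obtain ⟨x, hx⟩ := isConj_iff.mp hc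
  by_cases hg : ev gen p = 1
  · refine ⟨[], Nat.zero_le _, ?_⟩
    rw [hg] at hx
    rw [← hx, hg]
    simp [ev]
  obtain ⟨X⟩ := hX (ev gen p) hg
  obtain ⟨z, v, hz, hxv, hv⟩ := X.F_att x⁻¹
  have hF : v.length = X.F (X.π (ev gen v)) := by
    rw [hv, hxv, X.F_com z _ hz]
  have hx' : x = (ev gen v)⁻¹ * z⁻¹ := by
    rw [← mul_inv_rev, ← hxv, inv_inv]
  have hzg : z⁻¹ * ev gen p * z = ev gen p := by
    rw [mul_assoc, ← hz, inv_mul_cancel_left]
  have hq : (ev gen v)⁻¹ * ev gen p * ev gen v = ev gen q := by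
    calc (ev gen v)⁻¹ * ev gen p * ev gen v
        = (ev gen v)⁻¹ * (z⁻¹ * ev gen p * z) * ev gen v := by rw [hzg]
      _ = ((ev gen v)⁻¹ * z⁻¹) * ev gen p * ((ev gen v)⁻¹ * z⁻¹)⁻¹ := by group
      _ = ev gen q := by rw [← hx', hx]
  refine ⟨v, ?_, hq⟩
  rcases Nat.eq_zero_or_pos v.length with h0 | h0
  · rw [h0]; exact Nat.zero_le _
  · refine le_trans ?_ (hK (p.length + q.length))
    by_cases hl : p.length + q.length ≤ v.length
    · refine hNMA C ρ n (p.length + q.length) v.length ?_ hl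
      refine hBNT G n m gen rel C ρ (ev gen p) X p q v rfl ?_ hF h0
      rw [← hq]
      group
    · unfold dM
      omega

end Pool.Agent.Lib.MP59b239.CE
end

section
/-! # COA: the growth of `φ` is bounded by the norm of a `2`-chain -/
namespace Pool.Agent.Lib.MP59b239.CE

open Pool.Agent.Lib.MP59b239.CJ Pool.Agent.Lib.MP59b239.CT Pool.Agent.Lib.MP59b239.CD

namespace COAM

theorem var {V : Type} {n : ℕ} (σ : Fin n → Equiv.Perm V) (l φ : V → ℕ)
    (hφ : ∀ (v : V) (a : Let n), φ (stp σ v a) ≤ φ v + l (stp σ v a)) (ρ M : ℕ) (v' : V)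
    (hM : ∀ x, Rch σ ρ x v' → l x ≤ M) (w : List (Let n)) :
    ∀ v, w.length ≤ ρ → wlk σ v w = v' →
      φ v' ≤ φ v + w.length * M ∧ φ v ≤ φ v' + w.length * M := by
  induction w with
  | nil =>
    intro v _ h
    have h' : v = v' := h
    subst h'
    simp
  | cons a w ih =>
    intro v hw h
    have hw' : w.length + 1 ≤ ρ := by simpa using hw
    have h' : wlk σ (stp σ v a) w = v' := h
    obtain ⟨h1, h2⟩ := ih (stp σ v a) (by omega) h'
    have h3 := hφ v a
    have h4 : l (stp σ v a) ≤ M := hM _ ⟨w, by omega, h'⟩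
    have h5 := hφ (stp σ v a) a.swap
    rw [stp_swap] at h5
    have h6 : l v ≤ M := hM _ ⟨a :: w, by simpa using hw, h⟩
    rw [List.length_cons, add_mul, one_mul]
    constructor <;> omega

end COAM

open COAM in
theorem specCOA (hCAR : SpecCAR) (hWGT : SpecWGT) : SpecCOA := by
  classical
  intro G _ n m gen rel C ρ g X φ hφ c γ γ' a b hbd hγ hω ha hb
  rcases Nat.lt_or_ge a b with hab | hab
  swap
  · exact hab.trans (Nat.le_add_right _ _)
  have hl1 : ∀ v, (1 : ℚ) ≤ (X.l v : ℚ) := fun v => by exact_mod_cast X.l_pos v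
  have hu0 : ∀ v, (0 : ℚ) ≤ ((X.l v : ℚ))⁻¹ := fun v => by positivity
  have key := hCAR X.Q n m X.σ rel ρ φ (fun v => ((X.l v : ℚ))⁻¹) ((ρ : ℚ) * (2 * ρ + 1))
    X.rel_len hu0 (by
      intro v v' h
      have hvar : φ v' ≤ φ v + ρ * (X.l v' + 2 * ρ) ∧ φ v ≤ φ v' + ρ * (X.l v' + 2 * ρ) := by
        obtain ⟨w, hw, hwv⟩ := h
        obtain ⟨h1, h2⟩ := var X.σ X.l φ hφ ρ (X.l v' + 2 * ρ) v'
          (fun x hx => le_add_of_rch X.σ X.l 2 X.l_stp hx.symm) w v hw hwv
        have h3 : w.length * (X.l v' + 2 * ρ) ≤ ρ * (X.l v' + 2 * ρ) :=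
          Nat.mul_le_mul_right _ hw
        constructor <;> omega
      have h1 : (φ v' : ℚ) ≤ φ v + ρ * (X.l v' + 2 * ρ) := by exact_mod_cast hvar.1
      have h2 : (φ v : ℚ) ≤ φ v' + ρ * (X.l v' + 2 * ρ) := by exact_mod_cast hvar.2
      have hl := hl1 v'
      have hlpos : (0 : ℚ) < X.l v' := by linarith
      have h3 : (ρ : ℚ) * (X.l v' + 2 * ρ) * ((X.l v' : ℚ))⁻¹ ≤ (ρ : ℚ) * (2 * ρ + 1) := by
        rw [← div_eq_mul_inv, div_le_iff₀ hlpos]
        have : (0 : ℚ) ≤ ρ := by positivity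
        nlinarith [mul_nonneg (mul_nonneg this this) (sub_nonneg.2 hl)]
      constructor
      · refine le_trans (mul_le_mul_of_nonneg_right ?_ (hu0 v')) h3
        linarith
      · refine le_trans (mul_le_mul_of_nonneg_right ?_ (hu0 v')) h3
        linarith) c (b + 1)
  set f : ℕ → ℚ := fun t => ∑ e ∈ (sl X.σ rel φ t c).support,
    ((sl X.σ rel φ t c e).natAbs : ℚ) * ((X.l e.1 : ℚ))⁻¹ with hf
  have hf0 : ∀ t, 0 ≤ f t := fun t => Finset.sum_nonneg fun e _ =>
    mul_nonneg (by positivity) (hu0 _)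
  have hf1 : ∀ t, a < t → t ≤ b → 1 ≤ f t := by
    intro t hat htb
    have hlo : lo φ t (bd2 X.σ rel c) = γ := by
      ext e
      rw [lo_apply, hbd, Finsupp.sub_apply]
      split_ifs with h
      · have : γ' e = 0 := by
          by_contra hc
          have := hb e hc
          omega
        rw [this, sub_zero]
      · by_contra hc
        have := ha e (fun h0 => hc h0.symm)
        omega
    have hz1 : bd1 X.σ (sl X.σ rel φ t c) = 0 := by rw [X.bd1_sl, hlo, hγ]
    have hz2 : X.ω (sl X.σ rel φ t c) ≠ 0 := by rw [X.ω_sl, hlo]; exact hω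
    have := hWGT G n m gen rel C ρ g X _ hz1 hz2
    simpa only [hf, div_eq_mul_inv] using this
  have hsum : ((b : ℚ) - a) ≤ ∑ t ∈ Finset.range (b + 1), f t := by
    have h1 : ∑ t ∈ Finset.Ioc a b, f t ≤ ∑ t ∈ Finset.range (b + 1), f t := by
      refine Finset.sum_le_sum_of_subset_of_nonneg ?_ (fun t _ _ => hf0 t)
      intro t ht
      rw [Finset.mem_Ioc] at ht
      rw [Finset.mem_range]
      omega
    have h2 := Finset.card_nsmul_le_sum (Finset.Ioc a b) f 1 (by
      intro t ht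
      rw [Finset.mem_Ioc] at ht
      exact hf1 t ht.1 ht.2)
    rw [Nat.card_Ioc, nsmul_eq_mul, mul_one, Nat.cast_sub hab.le] at h2
    exact h2.trans h1
  have hfin : (b : ℚ) ≤ (a + ρ ^ 2 * (2 * ρ + 1) * nrm c : ℕ) := by
    push_cast
    have := hsum.trans key
    nlinarith [this]
  exact_mod_cast hfin

end Pool.Agent.Lib.MP59b239.CE
end

section
/-!
# INY: canonical `2`-chains of the quotient are determined by their boundary (helper77)
-/
namespace Pool.Agent.Lib.MP59b239.CE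

open Pool.Agent.Lib.MP59b239.CJ Pool.Agent.Lib.MP59b239.CT Pool.Agent.Lib.MP59b239.CD

open Finsupp

theorem specINY (hCYC : SpecCYC) (hZFR : SpecZFR) : SpecINY := by
  intro G _ n m gen rel hp P hP g hg D c hc
  have hrel := INJM.ev_rel gen rel hp
  have he : mp D.π n (bd2 (rsh gen) rel c) = 0 := by rw [QD.mp_bd2, hc]
  obtain ⟨e', he'⟩ := (hZFR (G × Fin n) (D.Q × Fin n) (INJM.act n g) (Prod.map D.π id)
    (fun x k h => by
      rw [INJM.act_zpow] at h
      have h1 := congrArg Prod.fst h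
      exact hg k (mul_eq_right.1 h1))
    (fun x y => by
      constructor
      · intro h
        have h1 := congrArg Prod.fst h
        have h2 := congrArg Prod.snd h
        obtain ⟨k, hk⟩ := (D.rel x.1 y.1).1 h1
        refine ⟨k, ?_⟩
        rw [INJM.act_zpow]
        exact Prod.ext hk h2.symm
      · rintro ⟨k, hk⟩
        rw [INJM.act_zpow] at hk
        subst hk
        exact Prod.ext ((D.rel x.1 _).2 ⟨k, rfl⟩) rfl)
    (bd2 (rsh gen) rel c)).1 he
  have he'' : bd2 (rsh gen) rel c = mp (fun y => g * y) n e' - e' := he'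
  have hb : mapDomain (fun y => g * y) (bd1 (rsh gen) e') = bd1 (rsh gen) e' := by
    have h0 := INJM.bd1_bd2 gen rel hrel c
    rw [he'', map_sub, sub_eq_zero] at h0
    rw [ltr_bd1, h0]
  have hb0 : bd1 (rsh gen) e' = 0 := (hZFR G D.Q (INJM.act0 g) D.π
    (fun x k h => by
      rw [INJM.act0_zpow] at h
      exact hg k (mul_eq_right.1 h))
    (fun x y => by
      rw [D.rel]
      simp only [INJM.act0_zpow])
    (bd1 (rsh gen) e')).2 hb
  obtain ⟨d, hd⟩ := hCYC G n m gen rel hp e' hb0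
  have hk : bd2 (rsh gen) rel (c - (mp (fun y => g * y) m d - d)) = 0 := by
    rw [map_sub, map_sub, ← ltr_bd2, hd, he'', sub_self]
  have h1 := hP.ker _ hk
  rw [map_sub, map_sub, sub_eq_zero, hP.eqv] at h1
  rw [h1, map_sub, INJM.mp_tr, sub_self]

end Pool.Agent.Lib.MP59b239.CE
end

section
/-!
# CE, module LVT: a good level
-/
namespace Pool.Agent.Lib.MP59b239.CE

open Pool.Agent.Lib.MP59b239.CJ Pool.Agent.Lib.MP59b239.CT Pool.Agent.Lib.MP59b239.CD

open scoped Classical

namespace LVTM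

variable {G : Type} [Group G] {n m : ℕ} {gen : Fin n → G} {rel : Fin m → List (Let n)}
  {C ρ : ℕ} {g : G} {X : Cy gen rel C ρ g} {A K₀ : ℕ} (S : Steps X A K₀)

theorem sum_bd2 (a b : ℕ) (hab : a ≤ b) (hb : b ≤ S.r) :
    bd2 X.σ rel (∑ j ∈ Finset.Ico a b, S.c j) = S.μ a - S.μ b := by
  induction b, hab using Nat.le_induction with
  | base => simp
  | succ b hab ih =>
    rw [Finset.sum_Ico_succ_top hab, map_add, ih (by omega), S.bd2_c b (by omega)]
    abel

theorem lo_μ (t j : ℕ) (hj : j ≤ S.r)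
    (hc : X.F (X.π (S.y j)) + A < t ∨ t + A < X.F (X.π (S.y j))) :
    lo X.F t (S.μ j) = if t < X.F (X.π (S.y j)) then 0 else S.μ j := by
  ext e
  rw [lo_apply]
  by_cases h0 : S.μ j e = 0
  · rw [h0, ite_self]
    split_ifs
    · rfl
    · exact h0.symm
  · have h1 := S.supp_μ j hj e h0
    by_cases hs : t < X.F (X.π (S.y j))
    · rw [if_pos hs, if_neg (by omega)]
      rfl
    · rw [if_neg hs, if_pos (by omega)]

theorem ω_lo_μ (t j : ℕ) (hj : j ≤ S.r)
    (hc : X.F (X.π (S.y j)) + A < t ∨ t + A < X.F (X.π (S.y j))) :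
    X.ω (lo X.F t (S.μ j)) = if t < X.F (X.π (S.y j)) then 0 else (K₀ : ℤ) := by
  rw [lo_μ S t j hj hc]
  split_ifs
  · exact map_zero _
  · exact S.ω_μ j hj

theorem sum_sl (t a b : ℕ) (hab : a ≤ b) (hb : b ≤ S.r)
    (hca : X.F (X.π (S.y a)) + A < t ∨ t + A < X.F (X.π (S.y a)))
    (hcb : X.F (X.π (S.y b)) + A < t ∨ t + A < X.F (X.π (S.y b))) :
    X.ω (∑ j ∈ Finset.Ico a b, sl X.σ rel X.F t (S.c j)) =
      (if t < X.F (X.π (S.y a)) then 0 else (K₀ : ℤ)) -
        if t < X.F (X.π (S.y b)) then 0 else (K₀ : ℤ) := by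
  rw [← map_sum, X.ω_sl, sum_bd2 S a b hab hb, map_sub, map_sub,
    ω_lo_μ S t a (by omega) hca, ω_lo_μ S t b hb hcb]

theorem F_le {R : ℕ} {v v' : X.Q} (h : Rch X.σ R v v') : X.F v' ≤ X.F v + R := by
  have := le_add_of_rch X.σ X.F 1 X.F_stp h
  omega

end LVTM

open LVTM in
theorem specLVT (hRGZ : SpecRGZ) (hCLU : SpecCLU) : SpecLVT := by
  intro G _ n m gen rel C ρ g X A K₀ S t ν z hlow hhigh hz hbz hclr hcard
  have hK₀ := S.K₀_pos
  have hdK : dR C A + ρ + A < dK C ρ A := by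
    unfold dK
    omega
  have hdD : A ≤ dD C ρ A := by
    have h1 : 1 ≤ dS C ρ A := by
      unfold dS
      omega
    unfold dD
    calc A ≤ 1 * (A + 2 * dS C ρ A) := by omega
      _ ≤ _ := Nat.mul_le_mul_right _ h1
  -- notation
  let F : ℕ → ℕ := fun j => X.F (X.π (S.y j))
  let sj : ℕ → (X.Q × Fin n →₀ ℤ) := fun j => sl X.σ rel X.F t (S.c j)
  let lcl : ℕ → Prop := fun j => S.idx (j + 1) ≤ S.idx j + A
  let near : ℕ → Prop := fun j => F j ≤ t + dK C ρ A ∧ t ≤ F j + dK C ρ A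
  let clear : ℕ → Prop := fun j => F j + A < t ∨ t + A < F j
  let s : ℕ → Prop := fun j => t < F j
  -- the long steps
  have hlong : ∀ j < S.r, ¬ lcl j → (s j ↔ s (j + 1)) := by
    intro j hj hl
    obtain ⟨hc0, hc1, hc2⟩ := hclr j hj hl
    have h1 := sum_sl S t j (j + 1) (by omega) (by omega) hc1 hc2
    rw [Nat.Ico_succ_singleton, Finset.sum_singleton, hc0, map_zero] at h1
    change t < X.F (X.π (S.y j)) ↔ t < X.F (X.π (S.y (j + 1)))
    by_cases e1 : t < X.F (X.π (S.y j)) <;> by_cases e2 : t < X.F (X.π (S.y (j + 1)))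
    · simp [e1, e2]
    · rw [if_pos e1, if_neg e2] at h1
      omega
    · rw [if_neg e1, if_pos e2] at h1
      omega
    · simp [e1, e2]
  -- the supports of the local slices
  have hsupp : ∀ j < S.r, ∀ e, sj j e ≠ 0 →
      lcl j ∧ near j ∧ Rch X.σ (dR C A + ρ) (X.π (S.y j)) e.1 := by
    intro j hj e he
    have hl : lcl j := by
      by_contra hl
      apply he
      change sl X.σ rel X.F t (S.c j) e = 0
      rw [(hclr j hj hl).1]
      rfl
    have hl' : S.idx (j + 1) ≤ S.idx j + A := hl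
    obtain ⟨c, hc1, hc2, hc3⟩ := exists_of_sl_ne_zero X.σ rel ρ X.rel_len X.F t (S.c j) e he
    have h1 : Rch X.σ (dR C A) (X.π (S.y j)) c.1 := by
      refine (S.supp_c j hj c hc1).mono ?_
      unfold dR
      exact Nat.mul_le_mul_left _ (by omega)
    have h2 := F_le h1
    have h3 := F_le h1.symm
    have h4 := F_le hc2
    have h5 := F_le hc2.symm
    refine ⟨hl, ?_, h1.trans hc2⟩
    change X.F (X.π (S.y j)) ≤ t + dK C ρ A ∧ t ≤ X.F (X.π (S.y j)) + dK C ρ A
    omega
  -- the cluster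
  obtain ⟨a, b, hab, hbr, hca, hcb, hnsa, hsb, j₀, hj1, hj2, hj3, hj4, hj5, hj6⟩ :=
    hCLU S.r (dD C ρ A) ν S.idx lcl near clear s S.idx_lt
    (by
      intro j _ hn
      change X.F (X.π (S.y j)) + A < t ∨ t + A < X.F (X.π (S.y j))
      have : ¬ (X.F (X.π (S.y j)) ≤ t + dK C ρ A ∧ t ≤ X.F (X.π (S.y j)) + dK C ρ A) := hn
      omega)
    (by
      change ¬ (X.F (X.π (S.y 0)) ≤ t + dK C ρ A ∧ t ≤ X.F (X.π (S.y 0)) + dK C ρ A)
      omega)
    (by
      change ¬ (X.F (X.π (S.y S.r)) ≤ t + dK C ρ A ∧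
        t ≤ X.F (X.π (S.y S.r)) + dK C ρ A)
      omega)
    (by
      change ¬ t < X.F (X.π (S.y 0))
      omega)
    (by
      change t < X.F (X.π (S.y S.r))
      omega)
    (by
      intro j hj hl hn
      have h1 := S.rch j (j + 1) (by omega) (by omega)
      have h2 : S.idx (j + 1) ≤ S.idx j + A := hl
      have h3 := F_le h1
      have h4 := F_le h1.symm
      change t < X.F (X.π (S.y j)) ↔ t < X.F (X.π (S.y (j + 1)))
      have : ¬ (X.F (X.π (S.y j)) ≤ t + dK C ρ A ∧ t ≤ X.F (X.π (S.y j)) + dK C ρ A) := hn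
      omega)
    (fun j hj hl => ⟨(hclr j hj hl).2.1, (hclr j hj hl).2.2, hlong j hj hl⟩)
    (fun j hj hl => by
      have h2 : S.idx (j + 1) ≤ S.idx j + A := hl
      omega)
    (by convert hcard)
  -- the region
  let P : ℕ → Prop := fun j => a ≤ j ∧ j < b
  let R := Finset.range S.r
  let S' := ∑ j ∈ R.filter P, sj j
  let T' := ∑ j ∈ (R.filter fun j => ¬ P j), sj j
  have hS2 : S' = ∑ j ∈ Finset.Ico a b, sj j := by
    have h1 : R.filter P = Finset.Ico a b := by
      ext j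
      rw [Finset.mem_filter, Finset.mem_range, Finset.mem_Ico]
      exact ⟨fun h => h.2, fun h => ⟨by omega, h⟩⟩
    rw [← h1]
  have hsum : (K₀ : ℤ) • z = S' + T' := by
    rw [hz]
    exact (Finset.sum_filter_add_sum_filter_not _ _ _).symm
  have hb2 := sum_sl S t a b hab hbr hca hcb
  have hnsa' : ¬ t < X.F (X.π (S.y a)) := hnsa
  have hsb' : t < X.F (X.π (S.y b)) := hsb
  rw [if_neg hnsa', if_pos hsb', sub_zero] at hb2
  obtain ⟨z', hz1, hz2, hz3, hz4⟩ := hRGZ X.Q n X.σ X.ω K₀ hK₀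
    (fun x => ∃ j, a ≤ j ∧ j < b ∧ lcl j ∧ near j ∧
      Rch X.σ (dR C A + ρ) (X.π (S.y j)) x)
    (fun x => ∃ j, j < S.r ∧ ¬ (a ≤ j ∧ j < b) ∧ lcl j ∧ near j ∧
      Rch X.σ (dR C A + ρ) (X.π (S.y j)) x)
    z S' T' hsum hbz
    (by
      intro e he
      change (∑ j ∈ R.filter P, sj j) e ≠ 0 at he
      rw [Finsupp.finsetSum_apply] at he
      obtain ⟨j, hj, hje⟩ := Finset.exists_ne_zero_of_sum_ne_zero he
      rw [Finset.mem_filter, Finset.mem_range] at hj
      obtain ⟨h0, h1, h2⟩ := hsupp j hj.1 e hje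
      exact ⟨j, hj.2.1, hj.2.2, h0, h1, h2⟩)
    (by
      intro e he
      change (∑ j ∈ R.filter (fun j => ¬ P j), sj j) e ≠ 0 at he
      rw [Finsupp.finsetSum_apply] at he
      obtain ⟨j, hj, hje⟩ := Finset.exists_ne_zero_of_sum_ne_zero he
      rw [Finset.mem_filter, Finset.mem_range] at hj
      obtain ⟨h0, h1, h2⟩ := hsupp j hj.1 e hje
      exact ⟨j, hj.1, hj.2, h0, h1, h2⟩)
    (by
      rintro x x' ⟨j, h1, h2, h3, h4, h5⟩ ⟨i, h6, h7, h8, h9, h10⟩ hx
      have h11 : Rch X.σ (dS C ρ A) (X.π (S.y j)) (X.π (S.y i)) := by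
        refine Rch.mono ?_ ((h5.trans hx).trans h10.symm)
        unfold dS
        omega
      have h12 := S.sep j i (by omega) (by omega) h11
      have h13 := S.sep i j (by omega) (by omega) h11.symm
      rcases hj6 j i h1 h2 h3 h4 h6 h8 h9 h7 with h | h <;> omega)
    (by rw [hS2]; exact hb2)
  refine ⟨j₀, by omega, hj4.1, hj4.2, z', hz1, hz2, hz3, ?_⟩
  intro e he
  obtain ⟨j, h1, h2, h3, h4, h5⟩ := hz4 e he
  obtain ⟨h6, h7⟩ := hj5 j h1 h2 h3 h4
  have h8 : Rch X.σ (ν * dD C ρ A) (X.π (S.y j₀)) (X.π (S.y j)) := by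
    rcases Nat.le_total j₀ j with h | h
    · exact (S.rch j₀ j h (by omega)).mono (by omega)
    · exact (S.rch j j₀ h (by omega)).symm.mono (by omega)
  exact (h8.trans h5).mono (by omega)

end Pool.Agent.Lib.MP59b239.CE
end

section
/-!
# MKY: the context exists
-/
namespace Pool.Agent.Lib.MP59b239.CE

open Pool.Agent.Lib.MP59b239.CJ Pool.Agent.Lib.MP59b239.CT Pool.Agent.Lib.MP59b239.CD

namespace MKYM

variable {G : Type} [Group G] {n m : ℕ} {gen : Fin n → G} {rel : Fin m → List (Let n)}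

theorem exists_word (h : Subgroup.closure (Set.range gen) = ⊤) (g : G) :
    ∃ w : List (Let n), ev gen w = g := by
  have hg : g ∈ Subgroup.closure (Set.range gen) := by rw [h]; trivial
  induction hg using Subgroup.closure_induction with
  | mem x hx =>
    obtain ⟨i, rfl⟩ := hx
    exact ⟨[Sum.inl i], by simp [ev]⟩
  | one => exact ⟨[], rfl⟩
  | mul x y _ _ hx hy =>
    obtain ⟨u, rfl⟩ := hx
    obtain ⟨w, rfl⟩ := hy
    exact ⟨u ++ w, ev_append gen u w⟩
  | inv x _ hx =>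
    obtain ⟨u, rfl⟩ := hx
    exact ⟨inv u, ev_inv gen u⟩

theorem zpow_ne {g : G} (h : ∀ N : ℕ, 0 < N → g ^ N ≠ 1) (k : ℤ) (hk : g ^ k = 1) : k = 0 := by
  by_contra hc
  refine h k.natAbs (Int.natAbs_pos.2 hc) ?_
  rcases Int.natAbs_eq k with h1 | h1
  · rw [h1, zpow_natCast] at hk
    exact hk
  · rw [h1, zpow_neg, zpow_natCast, inv_eq_one] at hk
    exact hk

variable {P : (G × Fin m →₀ ℤ) →ₗ[ℤ] (G × Fin m →₀ ℤ)}

theorem PP (hP : IsProj gen rel P) (c : G × Fin m →₀ ℤ) : P (P c) = P c := by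
  have h := hP.ker (P c - c) (by rw [map_sub, hP.bd, sub_self])
  rw [map_sub, sub_eq_zero] at h
  exact h

end MKYM

open MKYM in
theorem specMKY (hREL : SpecREL) (hPRJ : SpecPRJ) (hPNB : SpecPNB) (hTOY : SpecTOY)
    (hINY : SpecINY) (hQUO : SpecQUO) (hISR : SpecISR) (hWND : SpecWND) (hLWT : SpecLWT)
    (hLVQ : SpecLVQ) : SpecMKY := by
  intro G _ n m gen rel hPr hA hCd
  obtain ⟨P, hP⟩ := hPRJ G n m gen rel hCd
  have hgens := exists_word hPr.1
  obtain ⟨B, hB⟩ := hPNB G n m gen rel hgens P hP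
  obtain ⟨C, hC⟩ := hISR G n m gen rel hPr hA
  refine ⟨C * B + C + B, ∑ j, (rel j).length, fun g hg => ?_⟩
  have h1 : ∀ k : ℤ, g ^ k = 1 → k = 0 := zpow_ne (hTOY G n m gen rel hPr ⟨P, hP⟩ g hg)
  obtain ⟨D⟩ := hQUO G n gen g
  obtain ⟨ω, hω⟩ := hWND G n gen g D h1
  obtain ⟨l, l1, l2, l3, l4⟩ := hLWT G n gen g D hgens h1
  obtain ⟨F, F1, F2, F3, F4⟩ := hLVQ G n gen hPr.1 g D
  exact ⟨{ D with
    ω := ω
    l := l
    F := F
    g_inf := h1
    SX := LinearMap.range P
    SQ := (LinearMap.range P).map (mp D.π m)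
    SX_ltr := by
      rintro x c ⟨c', rfl⟩
      exact ⟨mp (fun y => x * y) m c', hP.eqv x c'⟩
    SX_mp := fun c hc => Submodule.mem_map_of_mem hc
    injX := by
      rintro c ⟨c', rfl⟩ hc
      rw [← PP hP]
      exact hP.ker _ hc
    inj := by
      rintro c ⟨c', ⟨c'', rfl⟩, rfl⟩ hc
      have h := hINY G n m gen rel hPr P hP g h1 D (P c'') hc
      rwa [PP hP] at h
    iso := by
      intro w hw
      obtain ⟨c, c1, c2, c3⟩ := hC w hw
      have hX : 1 ≤ w.length + 1 := by omega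
      refine ⟨P c, ⟨c, rfl⟩, (hP.bd c).trans c1, ?_, fun s hs => ?_⟩
      · calc nrm (P c) ≤ B * nrm c := (hB c).1
          _ ≤ B * (C * (w.length + 1) ^ 2) := Nat.mul_le_mul_left _ c2
          _ = (C * B) * (w.length + 1) ^ 2 := by ring
          _ ≤ (C * B + C + B) * (w.length + 1) ^ 2 := Nat.mul_le_mul_right _ (by omega)
      · obtain ⟨s', hs', hr⟩ := (hB c).2 s hs
        refine ((c3 s' hs').trans hr).mono ?_
        calc C * (w.length + 1) + B ≤ C * (w.length + 1) + B * (w.length + 1) :=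
              Nat.add_le_add_left (Nat.le_mul_of_pos_right _ hX) _
          _ = (C + B) * (w.length + 1) := by ring
          _ ≤ (C * B + C + B) * (w.length + 1) := Nat.mul_le_mul_right _ (by omega)
    rel_len := fun j => Finset.single_le_sum (f := fun j => (rel j).length)
      (fun _ _ => Nat.zero_le _) (Finset.mem_univ j)
    rel_one := (hREL G n m gen rel hPr).1
    gens := hgens
    ω_loop := hω
    l_pos := l1
    l_le := l2
    l_att := l3
    l_stp := l4
    F_stp := F1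
    F_one := F2
    F_com := F3
    F_att := F4 }⟩

end Pool.Agent.Lib.MP59b239.CE
end

section
/-!
# CE, module PG2: the number of levels with a short word
-/
namespace Pool.Agent.Lib.MP59b239.CE

open Pool.Agent.Lib.MP59b239.CJ Pool.Agent.Lib.MP59b239.CT Pool.Agent.Lib.MP59b239.CD

namespace PG2M

theorem eq_of_getElem? {α : Type} (L : ℕ) (u w : List α) (hu : u.length ≤ L) (hw : w.length ≤ L)
    (h : ∀ j : Fin L, u[j.1]? = w[j.1]?) : u = w := by
  apply List.ext_getElem?
  intro i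
  by_cases hi : i < L
  · exact h ⟨i, hi⟩
  · rw [List.getElem?_eq_none (by omega), List.getElem?_eq_none (by omega)]

end PG2M

theorem specPG2 : SpecPG2 := by
  intro G _ n m gen rel C ρ g X V R T hT
  classical
  -- choose the data of the levels
  have hch : ∀ t : ℕ, ∃ (y : G) (u : List (Let n)), t ∈ T → (u.length ≤ V ∧
      y * ev gen u = g * y ∧ X.F (X.π y) ≤ t + R ∧ t ≤ X.F (X.π y) + R) := by
    intro t
    by_cases ht : t ∈ T
    · obtain ⟨y, u, h⟩ := hT t ht
      exact ⟨y, u, fun _ => h⟩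
    · exact ⟨1, [], fun h => absurd h ht⟩
  choose y u hyu using hch
  let Φ : ℕ → (Fin V → Option (Let n)) := fun t j => (u t)[j.1]?
  -- the fibres are small
  have hfib : ∀ b ∈ (Finset.univ : Finset (Fin V → Option (Let n))),
      (T.filter fun t => Φ t = b).card ≤ 2 * R + 1 := by
    intro b _
    rcases (T.filter fun t => Φ t = b).eq_empty_or_nonempty with he | ⟨t₀, ht₀⟩
    · rw [he]; simp
    · rw [Finset.mem_filter] at ht₀
      obtain ⟨ht₀T, ht₀b⟩ := ht₀
      obtain ⟨hl₀, he₀, hF₀, hF₀'⟩ := hyu t₀ ht₀T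
      have hsub : (T.filter fun t => Φ t = b) ⊆
          Finset.Icc (X.F (X.π (y t₀)) - R) (X.F (X.π (y t₀)) + R) := by
        intro t ht
        rw [Finset.mem_filter] at ht
        obtain ⟨htT, htb⟩ := ht
        obtain ⟨hl, he, hF, hF'⟩ := hyu t htT
        have huu : u t = u t₀ := by
          apply PG2M.eq_of_getElem? V _ _ hl hl₀
          intro j
          exact congrFun (htb.trans ht₀b.symm) j
        have h1 : ev gen (u t) = (y t)⁻¹ * g * y t := by
          rw [mul_assoc, ← he, inv_mul_cancel_left]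
        have h2 : ev gen (u t₀) = (y t₀)⁻¹ * g * y t₀ := by
          rw [mul_assoc, ← he₀, inv_mul_cancel_left]
        have h3 : (y t)⁻¹ * g * y t = (y t₀)⁻¹ * g * y t₀ := by rw [← h1, ← h2, huu]
        have h4 : (y t * (y t₀)⁻¹) * g = g * (y t * (y t₀)⁻¹) := by
          have h5 : g * y t = y t * ((y t₀)⁻¹ * g * y t₀) := by
            rw [← h3]; group
          calc (y t * (y t₀)⁻¹) * g = y t * ((y t₀)⁻¹ * g * y t₀) * (y t₀)⁻¹ := by group
            _ = g * (y t * (y t₀)⁻¹) := by rw [← h5]; group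
        have h6 := X.F_com _ (y t₀) h4
        rw [inv_mul_cancel_right] at h6
        rw [Finset.mem_Icc]
        omega
      refine (Finset.card_le_card hsub).trans ?_
      rw [Nat.card_Icc]
      omega
  have hcard := Finset.card_le_mul_card_image_of_maps_to (s := T) (t := Finset.univ) (f := Φ)
    (fun _ _ => Finset.mem_univ _) (2 * R + 1) hfib
  refine hcard.trans (le_of_eq ?_)
  rw [Finset.card_univ, Fintype.card_fun, Fintype.card_option, Fintype.card_sum, Fintype.card_fin,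
    Fintype.card_fin, two_mul n]

end Pool.Agent.Lib.MP59b239.CE
end

section
/-!
# PNB: the projection has bounded norm and propagation
-/
namespace Pool.Agent.Lib.MP59b239.CE

open Pool.Agent.Lib.MP59b239.CJ Pool.Agent.Lib.MP59b239.CT Pool.Agent.Lib.MP59b239.CD

namespace PNBM

variable {G : Type} [Group G] {n m : ℕ} {gen : Fin n → G} {rel : Fin m → List (Let n)}

theorem P_eq (P : (G × Fin m →₀ ℤ) →ₗ[ℤ] (G × Fin m →₀ ℤ)) (hP : IsProj gen rel P)
    (c : G × Fin m →₀ ℤ) :
    P c = Finsupp.linearCombination ℤ (fun s : G × Fin m =>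
      mp (fun y => s.1 * y) m (P (Finsupp.single (1, s.2) 1))) c := by
  induction c using Finsupp.induction_linear with
  | zero => simp
  | add f g hf hg => rw [map_add, map_add, hf, hg]
  | single s x =>
    rw [Finsupp.linearCombination_single, ← hP.eqv, mp_single, mul_one, ← map_smul,
      Finsupp.smul_single, smul_eq_mul, mul_one]

theorem exists_of_mp_ne (x : G) (c : G × Fin m →₀ ℤ) (s : G × Fin m)
    (h : mp (fun y => x * y) m c s ≠ 0) : ∃ t, c t ≠ 0 ∧ s = (x * t.1, t.2) := by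
  classical
  rw [mp_apply] at h
  have h2 := Finsupp.mapDomain_support (Finsupp.mem_support_iff.2 h)
  obtain ⟨t, ht, hts⟩ := Finset.mem_image.1 h2
  exact ⟨t, Finsupp.mem_support_iff.1 ht, hts.symm⟩

theorem exists_of_lc_ne {α β : Type} (v : α → β →₀ ℤ) (c : α →₀ ℤ) (s : β)
    (h : Finsupp.linearCombination ℤ v c s ≠ 0) : ∃ a, c a ≠ 0 ∧ v a s ≠ 0 := by
  classical
  rw [Finsupp.linearCombination_apply, Finsupp.sum, Finsupp.finsetSum_apply] at h
  obtain ⟨a, ha, h2⟩ := Finset.exists_ne_zero_of_sum_ne_zero h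
  refine ⟨a, Finsupp.mem_support_iff.1 ha, fun h3 => h2 ?_⟩
  rw [Finsupp.smul_apply, h3, smul_zero]

end PNBM

open PNBM in
theorem specPNB : SpecPNB := by
  classical
  intro G _ n m gen rel hg P hP
  choose f hf using hg
  set B1 : ℕ := ∑ j : Fin m, nrm (P (Finsupp.single (1, j) 1)) with hB1
  set B2 : ℕ := ∑ j : Fin m, ∑ t ∈ (P (Finsupp.single (1, j) 1)).support, (f t.1).length with hB2
  refine ⟨B1 + B2, fun c => ⟨?_, fun s hs => ?_⟩⟩
  · rw [P_eq P hP c]
    refine (nrm_linearCombination_le _ B1 c fun a _ => ?_).trans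
      (Nat.mul_le_mul_right _ (Nat.le_add_right _ _))
    refine (nrm_mp_le _ _ _).trans ?_
    exact Finset.single_le_sum (f := fun j => nrm (P (Finsupp.single (1, j) 1)))
      (fun _ _ => Nat.zero_le _) (Finset.mem_univ a.2)
  · rw [P_eq P hP c] at hs
    obtain ⟨s', h1, h2⟩ := exists_of_lc_ne _ _ _ hs
    obtain ⟨t, ht, rfl⟩ := exists_of_mp_ne _ _ _ h2
    refine ⟨s', h1, f t.1, ?_, ?_⟩
    · have h3 : (f t.1).length ≤
          ∑ t ∈ (P (Finsupp.single (1, s'.2) 1)).support, (f t.1).length :=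
        Finset.single_le_sum (f := fun t : G × Fin m => (f t.1).length)
          (fun _ _ => Nat.zero_le _) (Finsupp.mem_support_iff.2 ht)
      have h4 : ∑ t ∈ (P (Finsupp.single (1, s'.2) 1)).support, (f t.1).length ≤ B2 :=
        Finset.single_le_sum (f := fun j : Fin m =>
            ∑ t ∈ (P (Finsupp.single (1, j) 1)).support, (f t.1).length)
          (fun _ _ => Nat.zero_le _) (Finset.mem_univ s'.2)
      omega
    · rw [wlk_rsh, hf]

end Pool.Agent.Lib.MP59b239.CE
end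

section
/-!
# CE, module PRJ: `CdTwo` in the notation of `CJ/Basic.lean`
-/
namespace Pool.Agent.Lib.MP59b239.CE

open Pool.Agent.Lib.MP59b239.CJ Pool.Agent.Lib.MP59b239.CT

theorem specPRJ : SpecPRJ := by
  intro G _ n m gen rel h
  obtain ⟨P, h1, h2, h3⟩ := h
  have e1 : bdry gen rel = bd2 (rsh gen) rel := by
    unfold bdry bd2
    congr 1
    funext c
    exact path_eq_chn gen c.1 (rel c.2)
  have e2 : ∀ x : G, (ltr x : (G × Fin m →₀ ℤ) →ₗ[ℤ] (G × Fin m →₀ ℤ)) =
      mp (fun y => x * y) m := by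
    intro x
    unfold ltr mp
    congr 1
  refine ⟨P, fun x c => ?_, fun c => ?_, fun c hc => ?_⟩
  · rw [← e2, h1]
  · rw [← e1, h2]
  · rw [← e1] at hc
    exact h3 c hc

end Pool.Agent.Lib.MP59b239.CE
end

section
/-!
# Module PTH (MP_59b239_al, folder CE): the steps along the walk `W`
-/
set_option autoImplicit false

namespace Pool.Agent.Lib.MP59b239.CE

open Pool.Agent.Lib.MP59b239.CJ Pool.Agent.Lib.MP59b239.CT Pool.Agent.Lib.MP59b239.CD

open scoped Classical

namespace PTHM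

variable {V : Type} {n : ℕ}

theorem cst_le (σ : Fin n → Equiv.Perm V) (l : V → ℕ) (hl : ∀ v a, l (stp σ v a) ≤ l v + 2) :
    ∀ (w : List (Let n)) (v : V), cst σ l v w ≤ w.length * (l v + 2 * w.length) := by
  intro w
  induction w with
  | nil => intro v; simp [cst]
  | cons a w ih =>
    intro v
    have h1 := ih (stp σ v a)
    have h2 := hl v a
    simp only [cst, List.length_cons]
    have h3 : w.length * (l (stp σ v a) + 2 * w.length) ≤ w.length * (l v + 2 + 2 * w.length) :=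
      Nat.mul_le_mul_left _ (by omega)
    nlinarith

theorem mf {α : Type} {p : α → Prop} {inst : DecidablePred p} {s : Finset α} {a : α} :
    a ∈ @Finset.filter α p inst s ↔ a ∈ s ∧ p a := Finset.mem_filter

theorem sub {G : Type} [Group G] (gen : Fin n → G) (W : List (Let n)) (a b : ℕ) (hab : a ≤ b)
    (hb : b ≤ W.length) : ∃ V : List (Let n), V.length = b - a ∧
      ev gen (W.take a) * ev gen V = ev gen (W.take b) := by
  refine ⟨(W.take b).drop a, ?_, ?_⟩
  · rw [List.length_drop, List.length_take, min_eq_left hb]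
  · rw [← ev_append]
    congr 1
    have h := List.take_append_drop a (W.take b)
    rw [List.take_take, min_eq_left hab] at h
    exact h

end PTHM

/-- **PTH**: the steps along the walk `W`. -/
theorem specPTH (hSUP : SpecSUP) (hTHN : SpecTHN) : SpecPTH := by
  intro G _ n m gen rel C ρ g X A τ p q v W hp hq hWv hA hpA hqA hW hmin hτ
  -- the ends are thin
  have lp : (1 : G) * ev gen p = g ^ (1 : ℕ) * 1 := by rw [hp, one_mul, mul_one, pow_one]
  have lq : ev gen W * ev gen q = g ^ (1 : ℕ) * ev gen W := by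
    obtain ⟨k, hk⟩ := (X.rel _ _).mp hWv
    have h1 : ev gen W = (g ^ k)⁻¹ * ev gen v := by rw [hk, inv_mul_cancel_left]
    rw [h1, mul_assoc, ← hq, pow_one, ← mul_assoc, ← mul_assoc]
    congr 1
    rw [← zpow_neg]
    exact (Commute.zpow_self g (-k)).eq
  have hP0 : X.l (X.π (ev gen (W.take 0))) ≤ A := by
    rw [List.take_zero, ev_nil]
    exact (X.l_le 1 p 1 one_ne_zero (by rw [lp, pow_one, zpow_one])).trans hpA
  have hPN : X.l (X.π (ev gen (W.take W.length))) ≤ A := by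
    rw [List.take_length]
    exact (X.l_le (ev gen W) q 1 one_ne_zero (by rw [lq, pow_one, zpow_one])).trans hqA
  obtain ⟨r, idx, hi0, hir, hlt, hPj, hrN, hD⟩ :=
    hTHN W.length (fun i => X.l (X.π (ev gen (W.take i))) ≤ A) hP0 hPN
  have hr : 0 < r := by
    rcases Nat.eq_zero_or_pos r with h | h
    · rw [h, hi0] at hir
      omega
    · exact h
  have hmono : ∀ i j, i ≤ j → j ≤ r → idx i ≤ idx j := by
    intro i j hij
    induction j, hij using Nat.le_induction with
    | base => intro _; exact le_rfl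
    | succ j hij ih =>
      intro hj
      exact (ih (by omega)).trans (hlt j (by omega)).le
  have hidx : ∀ j, j ≤ r → idx j ≤ W.length := fun j hj => by
    rw [← hir]
    exact hmono j r hj le_rfl
  -- the loops
  have hch : ∀ j, ∃ wk : List (Let n) × ℕ, (j ≤ r → 0 < wk.2 ∧ wk.1.length ≤ A ∧
      ev gen (W.take (idx j)) * ev gen wk.1 = g ^ wk.2 * ev gen (W.take (idx j))) ∧
      (j = 0 → wk = (p, 1)) ∧ (j = r → wk = (q, 1)) := by
    intro j
    by_cases h0 : j = 0
    · subst h0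
      refine ⟨(p, 1), fun _ => ⟨Nat.one_pos, hpA, ?_⟩, fun _ => rfl, fun h => by omega⟩
      rw [hi0, List.take_zero, ev_nil]
      exact lp
    · by_cases h1 : j = r
      · subst h1
        refine ⟨(q, 1), fun _ => ⟨Nat.one_pos, hqA, ?_⟩, fun h => by omega, fun _ => rfl⟩
        rw [hir, List.take_length]
        exact lq
      · by_cases h2 : j ≤ r
        · obtain ⟨w, k, hk, hw, hl⟩ := X.l_att (ev gen (W.take (idx j)))
          refine ⟨(w, k), fun _ => ⟨hk, ?_, hw⟩, fun h => absurd h h0, fun h => absurd h h1⟩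
          show w.length ≤ A
          rw [hl]
          exact hPj j h2
        · exact ⟨(p, 1), fun h => absurd h h2, fun h => absurd h h0, fun h => absurd h h1⟩
  choose wk hwk using hch
  obtain ⟨K₀, hK₀⟩ : ∃ K₀ : ℕ, K₀ = ∏ j ∈ Finset.range (r + 1), (wk j).2 := ⟨_, rfl⟩
  have hK0 : 0 < K₀ := by
    rw [hK₀]
    refine Finset.prod_pos fun j hj => ?_
    rw [Finset.mem_range] at hj
    exact ((hwk j).1 (by omega)).1
  have hdvd : ∀ j, j ≤ r → (wk j).2 ∣ K₀ := by
    intro j hj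
    rw [hK₀]
    exact Finset.dvd_prod_of_mem (fun j => (wk j).2) (Finset.mem_range.mpr (by omega))
  -- the two-chains
  have hst : ∀ j, ∃ c : X.Q × Fin m →₀ ℤ, j < r → c ∈ X.SQ ∧
      bd2 X.σ rel c = ((K₀ / (wk j).2 : ℕ) : ℤ) •
          chn X.σ (X.π (ev gen (W.take (idx j)))) (wk j).1 -
        ((K₀ / (wk (j + 1)).2 : ℕ) : ℤ) •
          chn X.σ (X.π (ev gen (W.take (idx (j + 1))))) (wk (j + 1)).1 ∧
      ∀ s, c s ≠ 0 → Rch X.σ (C * (4 * A + 4 * (idx (j + 1) - idx j) + 1))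
        (X.π (ev gen (W.take (idx j)))) s.1 := by
    intro j
    by_cases hj : j < r
    · obtain ⟨V, hV, hVe⟩ := PTHM.sub gen W (idx j) (idx (j + 1)) (hlt j hj).le
        (hidx (j + 1) (by omega))
      obtain ⟨h1, h2, h3⟩ := (hwk j).1 hj.le
      obtain ⟨k1, k2, k3⟩ := (hwk (j + 1)).1 (by omega)
      obtain ⟨c, hc0, hc1, hc2⟩ := hSUP G n m gen rel C ρ g X K₀ (wk j).2
        (wk (j + 1)).2 (ev gen (W.take (idx j))) V (wk j).1 (wk (j + 1)).1 hK0
        h1 k1 (hdvd j hj.le) (hdvd (j + 1) (by omega)) h3 (by rw [hVe]; exact k3)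
      rw [hVe] at hc1
      rw [hV] at hc2
      exact ⟨c, fun _ => ⟨hc0, hc1, fun s hs => (hc2 s hs).mono (Nat.mul_le_mul_left _ (by omega))⟩⟩
    · exact ⟨0, fun h => absurd h hj⟩
  choose c hc using hst
  let S : Steps X A K₀ :=
    { r := r
      y := fun j => ev gen (W.take (idx j))
      idx := idx
      μ := fun j => ((K₀ / (wk j).2 : ℕ) : ℤ) •
        chn X.σ (X.π (ev gen (W.take (idx j)))) (wk j).1
      c := c
      K₀_pos := hK0
      idx_lt := hlt
      bd1_μ := by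
        intro j hj
        obtain ⟨h1, h2, h3⟩ := (hwk j).1 hj
        rw [map_smul, bd1_chn, X.wlk_loop _ _ ((wk j).2 : ℤ) (by rw [h3, zpow_natCast]), sub_self,
          smul_zero]
      ω_μ := by
        intro j hj
        obtain ⟨h1, h2, h3⟩ := (hwk j).1 hj
        rw [map_smul, X.ω_loop _ _ ((wk j).2 : ℤ) (by rw [h3, zpow_natCast]), smul_eq_mul,
          ← Nat.cast_mul, Nat.div_mul_cancel (hdvd j hj)]
      supp_μ := by
        intro j hj e he
        obtain ⟨h1, h2, h3⟩ := (hwk j).1 hj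
        have h4 : chn X.σ (X.π (ev gen (W.take (idx j)))) (wk j).1 e ≠ 0 := by
          intro h0
          apply he
          rw [Finsupp.smul_apply, h0, smul_zero]
        have h5 := rch_of_chn_ne_zero X.σ _ _ _ h4
        have h6 : ∀ v a, X.F (stp X.σ v a) ≤ X.F v + 1 := X.F_stp
        have h7 := le_add_of_rch X.σ X.F 1 h6 h5
        have h8 := le_add_of_rch X.σ X.F 1 h6 h5.symm
        refine ⟨?_, ?_⟩
        · omega
        · omega
      bd2_c := fun j hj => (hc j hj).2.1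
      c_mem := fun j hj => (hc j hj).1
      supp_c := fun j hj => (hc j hj).2.2
      rch := by
        intro i j hij hj
        obtain ⟨V, hV, hVe⟩ := PTHM.sub gen W (idx i) (idx j) (hmono i j hij hj) (hidx j hj)
        refine ⟨V, hV.le, ?_⟩
        rw [X.toQD.wlk, hVe]
      sep := by
        intro i j hi hj ⟨w, hw, hwe⟩
        rcases Nat.le_total (idx j) (idx i) with h | h
        · omega
        · have h1 := hmin (idx i) (idx j) h (hidx j hj) w hwe
          have h2 := PTHM.cst_le X.σ X.l X.l_stp w (X.π (ev gen (W.take (idx i))))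
          have h3 : X.l (X.π (ev gen (W.take (idx i)))) ≤ A := hPj i hi
          have h4 : w.length * (X.l (X.π (ev gen (W.take (idx i)))) + 2 * w.length) ≤
              dS C ρ A * (A + 2 * dS C ρ A) := Nat.mul_le_mul hw (by omega)
          show idx j ≤ idx i + dS C ρ A * (A + 2 * dS C ρ A)
          omega }
  obtain ⟨hs1, hs2⟩ := hD A hA
  have hset : ∀ T : Finset ℕ, (∀ j, j ∈ T ↔ j ∈ Finset.range r ∧
      ¬ idx (j + 1) ≤ idx j + A) →
      T = (Finset.range r).filter (fun j => ¬ idx (j + 1) ≤ idx j + A) := by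
    intro T hT
    ext j
    rw [hT, Finset.mem_filter]
  have hcard : ∀ T : Finset ℕ, (∀ i, i ∈ T ↔ i ∈ Finset.range (W.length + 1) ∧
      ¬ X.l (X.π (ev gen (W.take i))) ≤ A) → T.card ≤ τ := by
    intro T hT
    refine le_trans (le_of_eq ?_) hτ
    congr 1
    ext i
    rw [hT, Finset.mem_filter]
  have hS1 : ∀ T : Finset ℕ, (∀ j, j ∈ T ↔ j ∈ Finset.range r ∧
      ¬ idx (j + 1) ≤ idx j + A) →
      ∑ j ∈ T, (idx (j + 1) - idx j) ≤ 2 * τ := by
    intro T hT
    rw [hset T hT]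
    exact hs1.trans (Nat.mul_le_mul_left _ (hcard _ fun i => PTHM.mf))
  refine ⟨K₀, S, hrN, ?_, ?_, ?_, ?_, ?_⟩
  · show X.π (ev gen (W.take (idx 0))) = X.π 1
    rw [hi0, List.take_zero, ev_nil]
  · show X.π (ev gen (W.take (idx r))) = X.π (ev gen v)
    rw [hir, List.take_length, hWv]
  · show ((K₀ / (wk 0).2 : ℕ) : ℤ) •
        chn X.σ (X.π (ev gen (W.take (idx 0)))) (wk 0).1 = _
    rw [(hwk 0).2.1 rfl, hi0, List.take_zero, ev_nil, Nat.div_one]
  · show ((K₀ / (wk r).2 : ℕ) : ℤ) •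
        chn X.σ (X.π (ev gen (W.take (idx r)))) (wk r).1 = _
    rw [(hwk r).2.2 rfl, hir, List.take_length, hWv, Nat.div_one]
  · exact hS1 _ fun j => PTHM.mf

end Pool.Agent.Lib.MP59b239.CE
end

section
/-!
# CE: module TOT (the number of levels)
-/
namespace Pool.Agent.Lib.MP59b239.CE

open Pool.Agent.Lib.MP59b239.CJ Pool.Agent.Lib.MP59b239.CT Pool.Agent.Lib.MP59b239.CD

namespace TOTM

/-- The number of levels near a given level. -/
theorem card_near_le (s : Finset ℕ) (F κ : ℕ) (P : ℕ → Prop) [DecidablePred P]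
    (h : ∀ t ∈ s, P t → F ≤ t + κ ∧ t ≤ F + κ) : (s.filter P).card ≤ 2 * κ + 1 := by
  have hsub : s.filter P ⊆ Finset.Icc (F - κ) (F + κ) := by
    intro t ht
    rw [Finset.mem_filter] at ht
    have := h t ht.1 ht.2
    rw [Finset.mem_Icc]
    omega
  refine (Finset.card_le_card hsub).trans ?_
  rw [Nat.card_Icc]
  omega

/-- Markov's inequality. -/
theorem mul_card_le (s : Finset ℕ) (f : ℕ → ℕ) (L : ℕ) :
    (L + 1) * (s.filter fun t => L < f t).card ≤ ∑ t ∈ s, f t := by
  calc (L + 1) * (s.filter fun t => L < f t).card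
      = ∑ _t ∈ s.filter (fun t => L < f t), (L + 1) := by
        rw [Finset.sum_const, smul_eq_mul, mul_comm]
    _ ≤ ∑ t ∈ s.filter (fun t => L < f t), f t :=
        Finset.sum_le_sum fun t ht => (Finset.mem_filter.mp ht).2
    _ ≤ ∑ t ∈ s, f t := Finset.sum_le_sum_of_subset (Finset.filter_subset _ _)

/-- Double counting. -/
theorem sum_card_le (s : Finset ℕ) (r κ : ℕ) (F : ℕ → ℕ) (P : ℕ → ℕ → Prop)
    [∀ t, DecidablePred (P t)] (h : ∀ t ∈ s, ∀ j < r, P t j → F j ≤ t + κ ∧ t ≤ F j + κ) :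
    ∑ t ∈ s, ((Finset.range r).filter (P t)).card ≤ (2 * κ + 1) * r := by
  calc ∑ t ∈ s, ((Finset.range r).filter (P t)).card
      = ∑ t ∈ s, ∑ j ∈ Finset.range r, if P t j then 1 else 0 := by
        refine Finset.sum_congr rfl fun t _ => ?_
        rw [Finset.card_filter]
    _ = ∑ j ∈ Finset.range r, ∑ t ∈ s, if P t j then 1 else 0 := Finset.sum_comm
    _ ≤ ∑ _j ∈ Finset.range r, (2 * κ + 1) := by
        refine Finset.sum_le_sum fun j hj => ?_
        rw [← Finset.card_filter]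
        exact card_near_le s (F j) κ _ fun t ht hP => h t ht j (Finset.mem_range.mp hj) hP
    _ = (2 * κ + 1) * r := by
        rw [Finset.sum_const, Finset.card_range, smul_eq_mul, mul_comm]

/-- The levels which are near one of two levels, with different distances. -/
theorem card_exists_le (s J : Finset ℕ) (κ d : ℕ → ℕ) (A c : ℕ) (F F' : ℕ → ℕ) (Q : ℕ → Prop)
    [DecidablePred Q]
    (h : ∀ t ∈ s, Q t → ∃ j ∈ J, (F j ≤ t + κ j ∧ t ≤ F j + κ j) ∨ (F j ≤ t + A ∧ t ≤ F j + A) ∨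
      (F' j ≤ t + A ∧ t ≤ F' j + A))
    (hd : ∀ j ∈ J, (2 * κ j + 1) + (2 * A + 1) + (2 * A + 1) ≤ c * d j) :
    (s.filter Q).card ≤ c * ∑ j ∈ J, d j := by
  classical
  have hsub : s.filter Q ⊆ J.biUnion fun j => Finset.Icc (F j - κ j) (F j + κ j) ∪
      Finset.Icc (F j - A) (F j + A) ∪ Finset.Icc (F' j - A) (F' j + A) := by
    intro t ht
    rw [Finset.mem_filter] at ht
    obtain ⟨j, hj, h1⟩ := h t ht.1 ht.2
    rw [Finset.mem_biUnion]
    refine ⟨j, hj, ?_⟩
    rw [Finset.mem_union, Finset.mem_union, Finset.mem_Icc, Finset.mem_Icc, Finset.mem_Icc]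
    omega
  refine (Finset.card_le_card hsub).trans ?_
  refine Finset.card_biUnion_le.trans ?_
  rw [Finset.mul_sum]
  refine Finset.sum_le_sum fun j hj => ?_
  refine le_trans ?_ (hd j hj)
  have h1 := Finset.card_union_le (Finset.Icc (F j - κ j) (F j + κ j) ∪
      Finset.Icc (F j - A) (F j + A)) (Finset.Icc (F' j - A) (F' j + A))
  have h2 := Finset.card_union_le (Finset.Icc (F j - κ j) (F j + κ j))
      (Finset.Icc (F j - A) (F j + A))
  have h3 : (Finset.Icc (F j - κ j) (F j + κ j)).card ≤ 2 * κ j + 1 := by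
    rw [Nat.card_Icc]; omega
  have h4 : (Finset.Icc (F j - A) (F j + A)).card ≤ 2 * A + 1 := by
    rw [Nat.card_Icc]; omega
  have h5 : (Finset.Icc (F' j - A) (F' j + A)).card ≤ 2 * A + 1 := by
    rw [Nat.card_Icc]; omega
  omega

section

variable {G : Type} [Group G] {n m : ℕ} {gen : Fin n → G} {rel : Fin m → List (Let n)}
  {C ρ : ℕ} {g : G} (X : Cy gen rel C ρ g) {A K₀ : ℕ} (S : Steps X A K₀)

/-- The sum of the steps. -/
theorem sum_c (c : X.Q × Fin m →₀ ℤ) (hcm : c ∈ X.SQ) (γ γ' : X.Q × Fin n →₀ ℤ) (h0 : S.μ 0 = (K₀ : ℤ) • γ)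
    (hr : S.μ S.r = (K₀ : ℤ) • γ') (hc : bd2 X.σ rel c = γ - γ') :
    ∑ j ∈ Finset.range S.r, S.c j = (K₀ : ℤ) • c := by
  have h1 : bd2 X.σ rel (∑ j ∈ Finset.range S.r, S.c j) = S.μ 0 - S.μ S.r := by
    rw [map_sum, ← Finset.sum_range_sub']
    exact Finset.sum_congr rfl fun j hj => S.bd2_c j (Finset.mem_range.mp hj)
  have h2 : bd2 X.σ rel (∑ j ∈ Finset.range S.r, S.c j - (K₀ : ℤ) • c) = 0 := by
    rw [map_sub, h1, map_smul, hc, h0, hr, smul_sub, sub_self]
  exact sub_eq_zero.mp (X.inj _ (X.SQ.sub_mem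
    (Submodule.sum_mem _ fun j hj => S.c_mem j (Finset.mem_range.mp hj))
    (X.SQ.smul_mem _ hcm)) h2)

/-- A level with a nonzero slice of a step is near the step. -/
theorem near_of_sl (t j : ℕ) (hj : j < S.r) (h : sl X.σ rel X.F t (S.c j) ≠ 0) :
    X.F (X.π (S.y j)) ≤ t + (C * (4 * A + 4 * (S.idx (j + 1) - S.idx j) + 1) + ρ) ∧
      t ≤ X.F (X.π (S.y j)) + (C * (4 * A + 4 * (S.idx (j + 1) - S.idx j) + 1) + ρ) := by
  obtain ⟨e, he⟩ : ∃ e, sl X.σ rel X.F t (S.c j) e ≠ 0 := by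
    by_contra hc
    push Not at hc
    exact h (Finsupp.ext hc)
  obtain ⟨s, hs, hR, ht⟩ := exists_of_sl_ne_zero X.σ rel ρ X.rel_len X.F t (S.c j) e he
  have h1 := S.supp_c j hj s hs
  have a1 := le_add_of_rch X.σ X.F 1 X.F_stp h1
  have a2 := le_add_of_rch X.σ X.F 1 X.F_stp h1.symm
  have b1 := le_add_of_rch X.σ X.F 1 X.F_stp hR
  have b2 := le_add_of_rch X.σ X.F 1 X.F_stp hR.symm
  generalize C * (4 * A + 4 * (S.idx (j + 1) - S.idx j) + 1) = B at *
  omega

end

end TOTM

open TOTM in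
theorem specTOT (hSUM : SpecSUM) (hLVT : SpecLVT) (hVER : SpecVER) (hPG2 : SpecPG2) : SpecTOT := by
  classical
  intro G _ n m gen rel C ρ g X A K₀ S c γ γ' a b τ hA hcm hμ0 hμr hbd hγ hγa hγb ha hb hlong L ν
  set κ := dK C ρ A with hκ
  set T := Finset.Ioo (a + κ) (b - κ) with hT
  have hTmem : ∀ t ∈ T, a + κ < t ∧ t + κ < b := by
    intro t ht
    rw [hT, Finset.mem_Ioo] at ht
    omega
  have hTb : T ⊆ Finset.range b := by
    intro t ht
    have := hTmem t ht
    rw [Finset.mem_range]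
    omega
  have hTcard : b ≤ a + 2 * κ + 1 + T.card := by
    rw [hT, Nat.card_Ioo]
    omega
  have hsum := hSUM X.Q n m X.σ rel ρ X.F X.rel_len X.F_stp
  -- the bad sets
  set NL := (Finset.range S.r).filter (fun j => ¬ S.idx (j + 1) ≤ S.idx j + A) with hNL
  set BA := T.filter (fun t => L < nrm (sl X.σ rel X.F t c)) with hBA
  set BD := T.filter (fun t => ν < ((Finset.range S.r).filter fun j =>
    X.F (X.π (S.y j)) ≤ t + κ ∧ t ≤ X.F (X.π (S.y j)) + κ).card) with hBD
  set BC := T.filter (fun t => ∃ j < S.r, ¬ S.idx (j + 1) ≤ S.idx j + A ∧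
    ¬ (sl X.σ rel X.F t (S.c j) = 0 ∧
      (X.F (X.π (S.y j)) + A < t ∨ t + A < X.F (X.π (S.y j))) ∧
      (X.F (X.π (S.y (j + 1))) + A < t ∨ t + A < X.F (X.π (S.y (j + 1)))))) with hBC
  set GD := T.filter (fun t => t ∉ BA ∧ t ∉ BD ∧ t ∉ BC) with hGD
  have hcover : T ⊆ BA ∪ BC ∪ BD ∪ GD := by
    intro t ht
    by_cases h1 : t ∈ BA
    · simp [h1]
    by_cases h2 : t ∈ BD
    · simp [h2]
    by_cases h4 : t ∈ BC
    · simp [h4]
    have : t ∈ GD := by
      rw [hGD, Finset.mem_filter]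
      exact ⟨ht, h1, h2, h4⟩
    simp [this]
  have hTle : T.card ≤ BA.card + BC.card + BD.card + GD.card := by
    refine (Finset.card_le_card hcover).trans ?_
    refine (Finset.card_union_le _ _).trans ?_
    have h1 := Finset.card_union_le (BA ∪ BC) BD
    have h2 := Finset.card_union_le BA BC
    omega
  -- (1)
  have h1 : (L + 1) * BA.card ≤ ρ ^ 2 * nrm c := by
    refine (mul_card_le T (fun t => nrm (sl X.σ rel X.F t c)) L).trans ?_
    exact (Finset.sum_le_sum_of_subset hTb).trans (hsum c b)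
  -- (2)
  have h2 : (ν + 1) * BD.card ≤ (2 * κ + 1) * S.r := by
    refine (mul_card_le T (fun t => ((Finset.range S.r).filter fun j =>
      X.F (X.π (S.y j)) ≤ t + κ ∧ t ≤ X.F (X.π (S.y j)) + κ).card) ν).trans ?_
    exact sum_card_le T S.r κ (fun j => X.F (X.π (S.y j)))
      (fun t j => X.F (X.π (S.y j)) ≤ t + κ ∧ t ≤ X.F (X.π (S.y j)) + κ)
      fun t _ j _ h => h
  -- (3)
  have h4 : BC.card ≤ (32 * C + 4 * ρ + 10) * τ := by
    have h41 : BC.card ≤ (16 * C + 2 * ρ + 5) * ∑ j ∈ NL, (S.idx (j + 1) - S.idx j) := by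
      refine card_exists_le T NL
        (fun j => C * (4 * A + 4 * (S.idx (j + 1) - S.idx j) + 1) + ρ)
        (fun j => S.idx (j + 1) - S.idx j) A (16 * C + 2 * ρ + 5)
        (fun j => X.F (X.π (S.y j))) (fun j => X.F (X.π (S.y (j + 1)))) _ ?_ ?_
      · rintro t - ⟨j, hj, hl, hn⟩
        have hjN : j ∈ NL := by
          rw [hNL, Finset.mem_filter, Finset.mem_range]
          exact ⟨hj, hl⟩
        refine ⟨j, hjN, ?_⟩
        by_cases h5 : X.F (X.π (S.y j)) + A < t ∨ t + A < X.F (X.π (S.y j))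
        · by_cases h6 : X.F (X.π (S.y (j + 1))) + A < t ∨ t + A < X.F (X.π (S.y (j + 1)))
          · left
            exact near_of_sl X S t j hj fun h7 => hn ⟨h7, h5, h6⟩
          · right; right
            show X.F (X.π (S.y (j + 1))) ≤ t + A ∧ t ≤ X.F (X.π (S.y (j + 1))) + A
            omega
        · right; left
          show X.F (X.π (S.y j)) ≤ t + A ∧ t ≤ X.F (X.π (S.y j)) + A
          omega
      · intro j hj
        rw [hNL, Finset.mem_filter] at hj
        have hd : A < S.idx (j + 1) - S.idx j := by omega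
        show (2 * (C * (4 * A + 4 * (S.idx (j + 1) - S.idx j) + 1) + ρ) + 1) + (2 * A + 1) +
          (2 * A + 1) ≤ (16 * C + 2 * ρ + 5) * (S.idx (j + 1) - S.idx j)
        generalize S.idx (j + 1) - S.idx j = d at hd
        have e1 : C * (4 * A + 4 * d + 1) ≤ C * (8 * d) := Nat.mul_le_mul_left _ (by omega)
        have e2 : ρ ≤ ρ * d := Nat.le_mul_of_pos_right _ (by omega)
        have e3 : (16 * C + 2 * ρ + 5) * d = 2 * (C * (8 * d)) + 2 * (ρ * d) + 5 * d := by ring
        rw [e3]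
        omega
    calc BC.card ≤ (16 * C + 2 * ρ + 5) * ∑ j ∈ NL, (S.idx (j + 1) - S.idx j) := h41
      _ ≤ (16 * C + 2 * ρ + 5) * (2 * τ) := Nat.mul_le_mul_left _ hlong
      _ = (32 * C + 4 * ρ + 10) * τ := by ring
  -- (4)
  have hcsum := sum_c X S c hcm γ γ' hμ0 hμr hbd
  have h5 : GD.card ≤ (2 * κ + 1) *
      (2 * n + 1) ^ (L * (2 * (ν * dD C ρ A + dR C A + ρ) + 3)) := by
    refine hPG2 G n m gen rel C ρ g X _ κ GD fun t ht => ?_
    rw [hGD, Finset.mem_filter] at ht
    obtain ⟨htT, hnA, hnD, hnC⟩ := ht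
    obtain ⟨hta, htb⟩ := hTmem t htT
    have hz1 : bd1 X.σ (sl X.σ rel X.F t c) = 0 := by
      rw [X.bd1_sl, hbd]
      have : lo X.F t (γ - γ') = γ := by
        ext e
        rw [lo_apply, Finsupp.sub_apply]
        by_cases he : γ e = 0
        · by_cases he' : γ' e = 0
          · rw [he, he']; simp
          · have := hγb e he'
            rw [if_neg (by omega), he]
        · have h6 := hγa e he
          by_cases he' : γ' e = 0
          · rw [if_pos (by omega), he', sub_zero]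
          · have := hγb e he'
            omega
      rw [this, hγ]
    have hz2 : (K₀ : ℤ) • sl X.σ rel X.F t c =
        ∑ j ∈ Finset.range S.r, sl X.σ rel X.F t (S.c j) := by
      rw [← map_smul, ← hcsum, map_sum]
    have hz4 : ∀ j < S.r, ¬ S.idx (j + 1) ≤ S.idx j + A →
        sl X.σ rel X.F t (S.c j) = 0 ∧
        (X.F (X.π (S.y j)) + A < t ∨ t + A < X.F (X.π (S.y j))) ∧
        (X.F (X.π (S.y (j + 1))) + A < t ∨ t + A < X.F (X.π (S.y (j + 1)))) := by
      intro j hj hl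
      by_contra h
      exact hnC (Finset.mem_filter.mpr ⟨htT, j, hj, hl, h⟩)
    have hz5 : ((Finset.range S.r).filter fun j => X.F (X.π (S.y j)) ≤ t + κ ∧
        t ≤ X.F (X.π (S.y j)) + κ).card ≤ ν := by
      by_contra h
      exact hnD (Finset.mem_filter.mpr ⟨htT, not_le.mp h⟩)
    have hz6 : nrm (sl X.σ rel X.F t c) ≤ L := by
      by_contra h
      exact hnA (Finset.mem_filter.mpr ⟨htT, not_le.mp h⟩)
    obtain ⟨j₀, -, hj1, hj2, z', hz'1, hz'2, hz'3, hz'4⟩ :=
      hLVT G n m gen rel C ρ g X A K₀ S t ν (sl X.σ rel X.F t c) (by omega) (by omega) hz2 hz1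
        hz4 hz5
    obtain ⟨u, hu1, hu2⟩ := hVER G n m gen rel C ρ g X (S.y j₀) _ z' hz'1 hz'2 hz'4
    exact ⟨S.y j₀, u, hu1.trans (Nat.mul_le_mul_right _ (hz'3.trans hz6)), hu2, hj1, hj2⟩
  refine ⟨BA.card, BD.card, h1, h2, ?_⟩
  generalize (2 * κ + 1) *
      (2 * n + 1) ^ (L * (2 * (ν * dD C ρ A + dR C A + ρ) + 3)) = M at h5 ⊢
  generalize (32 * C + 4 * ρ + 10) * τ = M' at h4 ⊢
  omega

end Pool.Agent.Lib.MP59b239.CE
end
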