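import Pool.Agent.Lib.MP_59b239_al.CE.Spec
import Pool.Agent.Lib.MP_59b239_al.CJ.ZFR

section
/-!
# Module TOY (helper50): a finitely presented group of cohomological dimension at most two is torsion free

The port of `CJ/TOR.lean` (helper87).
-/
namespace Pool.Agent.Lib.MP59b239.CE

open Pool.Agent.Lib.MP59b239.CJ Pool.Agent.Lib.MP59b239.CT Pool.Agent.Lib.MP59b239.CD
open Finsupp

open Pool.Agent.Lib.MP59b239.CJ.TORM in
theorem specTOY (hCYC : CJ.SpecCYC) (hFRE : CJ.SpecFRE) : SpecTOY := by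
  intro G _ n m gen rel hp hP g hg N0 hN0 hgN0
  obtain ⟨P, hP⟩ := hP
  have hfo : IsOfFinOrder g := isOfFinOrder_iff_pow_eq_one.2 ⟨N0, hN0, hgN0⟩
  obtain ⟨N, hNdef⟩ : ∃ N, N = orderOf g := ⟨_, rfl⟩
  have hNpos : 0 < N := by rw [hNdef]; exact hfo.orderOf_pos
  have hN1 : N ≠ 1 := by
    rw [hNdef]
    intro h
    exact hg (orderOf_eq_one_iff.1 h)
  have hgN : g ^ N = 1 := by rw [hNdef]; exact pow_orderOf_eq_one g
  have hlt : ∀ i, 0 < i → i < N → g ^ i ≠ 1 := by
    intro i h1 h2 h3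
    rw [hNdef] at h2
    exact absurd (Nat.le_of_dvd h1 (orderOf_dvd_of_pow_eq_one h3)) (not_le.2 h2)
  have htN : ∀ r, tau g r ^ N = 1 := by
    intro r
    ext1 x
    rw [tau_pow, hgN, one_mul]
    rfl
  have htf : ∀ r, ∀ x : G × Fin r, ∀ i, 0 < i → i < N → (tau g r ^ i) x ≠ x := by
    intro r x i h1 h2 h3
    rw [tau_pow] at h3
    have h4 : g ^ i * x.1 = x.1 := congrArg Prod.fst h3
    exact hlt i h1 h2 (by simpa using h4)
  have hrel := ev_rel gen rel hp
  obtain ⟨w, hw⟩ := exists_word gen hp.1 g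
  obtain ⟨e1, he1⟩ : ∃ e1, e1 = chn (rsh gen) 1 w := ⟨_, rfl⟩
  have hb1 : bd1 (rsh gen) e1 = single g 1 - single 1 1 := by
    rw [he1, bd1_chn, wlk_rsh, one_mul, hw]
  -- `bd1 (nu e1) = 0`
  have hb2 : bd1 (rsh gen) (nu g N n e1) = 0 := by
    unfold nu
    rw [map_sum]
    have h1 : ∀ i ∈ Finset.range N, bd1 (rsh gen) (mp (fun y => g ^ i * y) n e1) =
        single (g ^ (i + 1)) 1 - single (g ^ i) 1 := by
      intro i _
      rw [← ltr_bd1, hb1]
      have hl : ∀ x : G →₀ ℤ, mapDomain (fun y => g ^ i * y) x =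
        Finsupp.lmapDomain ℤ ℤ (fun y => g ^ i * y) x := fun x => rfl
      rw [hl, map_sub, ← hl, ← hl, mapDomain_single, mapDomain_single, mul_one, pow_succ]
    rw [Finset.sum_congr rfl h1, Finset.sum_range_sub (fun i => single (g ^ i) (1:ℤ)), hgN,
      pow_zero, sub_self]
  obtain ⟨c0, hc0⟩ := hCYC G n m gen rel hp _ hb2
  obtain ⟨c2, hc2def⟩ : ∃ c2, c2 = P c0 := ⟨_, rfl⟩
  have hc2 : bd2 (rsh gen) rel c2 = nu g N n e1 := by rw [hc2def, hP.bd, hc0]
  have hinv : mp (fun y => g * y) m c2 = c2 := by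
    have h1 : bd2 (rsh gen) rel (mp (fun y => g * y) m c0 - c0) = 0 := by
      rw [map_sub, ← ltr_bd2, hc0, mp_nu g N n hgN, sub_self]
    have h2 := hP.ker _ h1
    rw [map_sub, hP.eqv, sub_eq_zero] at h2
    rw [hc2def]
    exact h2
  obtain ⟨c', hc'⟩ := (hFRE (G × Fin m) (tau g m) N hNpos (htN m) (htf m) c2).1
    (by rw [map_tau]; exact hinv)
  have hc'' : c2 = nu g N m c' := by
    rw [hc']
    exact Finset.sum_congr rfl fun i _ => map_tau_pow g m i c'
  have hz : nu g N n (e1 - bd2 (rsh gen) rel c') = 0 := by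
    rw [nu_sub, ← bd2_nu, ← hc'', hc2, sub_self]
  obtain ⟨e', he'⟩ := (hFRE (G × Fin n) (tau g n) N hNpos (htN n) (htf n)
    (e1 - bd2 (rsh gen) rel c')).2 (by
      rw [← hz]
      exact Finset.sum_congr rfl fun i _ => map_tau_pow g n i _)
  rw [map_tau] at he'
  have h5 := congrArg (bd1 (rsh gen)) he'
  rw [map_sub, bd1_bd2 gen rel hrel, sub_zero, map_sub, ← ltr_bd1, hb1] at h5
  -- `u = single 1 1 - bd1 e'` is invariant
  have h6 : mapDomain (Equiv.mulLeft g) (single 1 1 - bd1 (rsh gen) e') =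
      single 1 1 - bd1 (rsh gen) e' := by
    have hl : ∀ x : G →₀ ℤ, mapDomain (Equiv.mulLeft g) x =
      Finsupp.lmapDomain ℤ ℤ (fun y => g * y) x := fun x => rfl
    have hl' : ∀ x : G →₀ ℤ, mapDomain (fun y => g * y) x =
      Finsupp.lmapDomain ℤ ℤ (fun y => g * y) x := fun x => rfl
    rw [hl, map_sub, ← hl', ← hl', mapDomain_single, mul_one, sub_eq_sub_iff_sub_eq_sub]
    exact h5
  have hpow : ∀ (i : ℕ) (x : G), (Equiv.mulLeft g ^ i) x = g ^ i * x := by
    intro i x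
    induction i with
    | zero => simp
    | succ i ih =>
      rw [pow_succ', Equiv.Perm.mul_apply, ih, pow_succ', mul_assoc]
      rfl
  obtain ⟨a, ha'⟩ := (hFRE G (Equiv.mulLeft g) N hNpos (by
      ext1 x
      rw [hpow, hgN, one_mul]
      rfl) (by
      intro x i h1 h2 h3
      rw [hpow] at h3
      exact hlt i h1 h2 (by simpa using h3)) (single 1 1 - bd1 (rsh gen) e')).1 h6
  have h7 := congrArg (sm G) ha'
  rw [map_sub, sm_single, sm_bd1, sub_zero, map_sum] at h7
  simp only [sm_mapDomain, Finset.sum_const, Finset.card_range, nsmul_eq_mul] at h7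
  have h8 : (N : ℤ) ∣ 1 := ⟨_, h7⟩
  have h9 : N ∣ 1 := by exact_mod_cast h8
  exact hN1 (Nat.dvd_one.1 h9)

end Pool.Agent.Lib.MP59b239.CE
end

section
/-!
# CE, VER: a word from a cycle
-/
namespace Pool.Agent.Lib.MP59b239.CE

open Pool.Agent.Lib.MP59b239.CJ Pool.Agent.Lib.MP59b239.CT Pool.Agent.Lib.MP59b239.CD

namespace VERM

variable {G : Type} [Group G] {n m : ℕ} {gen : Fin n → G} {rel : Fin m → List (Let n)}
  {C ρ : ℕ} {g : G} (X : Cy gen rel C ρ g)

/-- One closed walk, moved to the base point. -/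
theorem one (y₀ : G) (R : ℕ) (v : X.Q) (w : List (Let n)) (hR : Rch X.σ R (X.π y₀) v)
    (hw : wlk X.σ v w = v) :
    ∃ u : List (Let n), u.length ≤ 2 * R + w.length ∧
      y₀ * ev gen u = g ^ (X.ω (chn X.σ v w)) * y₀ := by
  obtain ⟨s, hs, rfl⟩ := hR
  refine ⟨s ++ (w ++ inv s), ?_, ?_⟩
  · rw [List.length_append, List.length_append, length_inv]
    omega
  · have hcl : wlk X.σ (X.π y₀) (s ++ (w ++ inv s)) = X.π y₀ := by
      rw [wlk_append, wlk_append, hw, wlk_inv]
    obtain ⟨k, hk⟩ := X.exists_loop y₀ _ hcl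
    have h1 := X.ω_loop y₀ _ k hk
    rw [chn_append, chn_append, hw, chn_inv] at h1
    have h2 : X.ω (chn X.σ (wlk X.σ (X.π y₀) s) w) = k := by
      rw [← h1]
      congr 1
      abel
    rw [hk, h2]

/-- The product of the closed walks. -/
theorem all (y₀ : G) (R : ℕ) (l : List (X.Q × List (Let n)))
    (h : ∀ c ∈ l, Rch X.σ R (X.π y₀) c.1 ∧ wlk X.σ c.1 c.2 = c.1 ∧ c.2 ≠ []) :
    ∃ u : List (Let n), u.length ≤ (l.map fun c => c.2.length).sum * (2 * R + 1) ∧
      y₀ * ev gen u = g ^ (X.ω (l.map fun c => chn X.σ c.1 c.2).sum) * y₀ := by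
  induction l with
  | nil => exact ⟨[], by simp, by simp⟩
  | cons c l ih =>
    obtain ⟨u, hu, hu'⟩ := ih fun d hd => h d (List.mem_cons_of_mem _ hd)
    obtain ⟨hc1, hc2, hc3⟩ := h c (List.mem_cons_self ..)
    obtain ⟨t, ht, ht'⟩ := one X y₀ R c.1 c.2 hc1 hc2
    refine ⟨t ++ u, ?_, ?_⟩
    · have hpos : 1 ≤ c.2.length := List.length_pos_iff.mpr hc3
      have h3 : 2 * R + c.2.length ≤ c.2.length * (2 * R + 1) := by nlinarith
      rw [List.length_append, List.map_cons, List.sum_cons, Nat.add_mul]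
      omega
    · rw [ev_append, ← mul_assoc, ht', mul_assoc, hu', List.map_cons, List.sum_cons, map_add,
        zpow_add, mul_assoc]

end VERM

theorem specVER (hFLW : SpecFLW) : SpecVER := by
  intro G _ n m gen rel C ρ g X y₀ R z hz hω hR
  obtain ⟨l, hl, hlz, hln⟩ := hFLW X.Q n X.σ z hz
  obtain ⟨u, hu, hu'⟩ := VERM.all X y₀ (R + 1) l fun c hc => by
    obtain ⟨h1, h2, i, h3⟩ := hl c hc
    refine ⟨?_, h1, h2⟩
    rcases h3 with h3 | h3
    · exact (hR _ h3).mono (by omega)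
    · have h4 := (hR _ h3).trans (rch_stp X.σ ((X.σ i).symm c.1) (Sum.inl i))
      simpa [stp] using h4
  refine ⟨u, ?_, ?_⟩
  · rw [hln] at hu
    exact hu.trans (le_of_eq (by ring))
  · rw [hu', ← hlz, hω, zpow_one]

end Pool.Agent.Lib.MP59b239.CE
end

section
/-!
# CE, module WGT: the weight of a cycle with a nonzero winding number
-/
namespace Pool.Agent.Lib.MP59b239.CE

open Pool.Agent.Lib.MP59b239.CJ Pool.Agent.Lib.MP59b239.CT Pool.Agent.Lib.MP59b239.CD

namespace WGTM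

/-- If the norms add up then nothing cancels. -/
theorem abs_add_of_nrm {α : Type} (c d : α →₀ ℤ) (h : nrm c + nrm d ≤ nrm (c + d)) (e : α) :
    ((c + d) e).natAbs = (c e).natAbs + (d e).natAbs := by
  classical
  have hs1 : c.support ⊆ c.support ∪ d.support ∪ {e} := fun x hx => by simp [hx]
  have hs2 : d.support ⊆ c.support ∪ d.support ∪ {e} := fun x hx => by simp [hx]
  have hs3 : (c + d).support ⊆ c.support ∪ d.support ∪ {e} := fun x hx => by
    exact Finset.mem_union_left _ (Finsupp.support_add hx)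
  rw [nrm_eq_of_subset _ _ hs1, nrm_eq_of_subset _ _ hs2, nrm_eq_of_subset _ _ hs3,
    ← Finset.sum_add_distrib] at h
  have hle : ∀ x ∈ c.support ∪ d.support ∪ {e},
      ((c + d) x).natAbs ≤ (c x).natAbs + (d x).natAbs := fun x _ => by
    rw [Finsupp.add_apply]
    exact Int.natAbs_add_le _ _
  have heq := (Finset.sum_eq_sum_iff_of_le hle).1 (le_antisymm (Finset.sum_le_sum hle) h)
  exact heq e (by simp)

theorem nrm_list_sum_le {V : Type} {n : ℕ} (σ : Fin n → Equiv.Perm V)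
    (L : List (V × List (Let n))) :
    nrm (L.map fun c => chn σ c.1 c.2).sum ≤ (L.map fun c => c.2.length).sum := by
  induction L with
  | nil => simp
  | cons c L ih =>
    rw [List.map_cons, List.map_cons, List.sum_cons, List.sum_cons]
    exact (nrm_add_le _ _).trans (Nat.add_le_add (nrm_chn_le σ _ _) ih)

theorem exists_ne_zero {V : Type} {n : ℕ} (σ : Fin n → Equiv.Perm V)
    (ω : (V × Fin n →₀ ℤ) →ₗ[ℤ] ℤ) (L : List (V × List (Let n)))
    (h : ω (L.map fun c => chn σ c.1 c.2).sum ≠ 0) : ∃ c ∈ L, ω (chn σ c.1 c.2) ≠ 0 := by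
  induction L with
  | nil => simp at h
  | cons c L ih =>
    rw [List.map_cons, List.sum_cons, map_add] at h
    by_cases hc : ω (chn σ c.1 c.2) = 0
    · rw [hc, zero_add] at h
      obtain ⟨c', hc', h'⟩ := ih h
      exact ⟨c', List.mem_cons_of_mem _ hc', h'⟩
    · exact ⟨c, List.mem_cons_self, hc⟩

end WGTM

open WGTM

theorem specWGT (hFLW : SpecFLW) : SpecWGT := by
  intro G _ n m gen rel C ρ g X z hz hω
  obtain ⟨L, hL, hzL, hlen⟩ := hFLW X.Q n X.σ z hz
  have hω' : X.ω (L.map fun c => chn X.σ c.1 c.2).sum ≠ 0 := by rwa [← hzL]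
  obtain ⟨⟨v, w⟩, hc, hcω⟩ := exists_ne_zero X.σ X.ω L hω'
  obtain ⟨hcl, hne, -⟩ := hL _ hc
  simp only at hcl hne hcω
  obtain ⟨L₁, L₂, rfl⟩ := List.append_of_mem hc
  -- the rest
  have hz2 : z = chn X.σ v w + ((L₁ ++ L₂).map fun c => chn X.σ c.1 c.2).sum := by
    rw [hzL]
    simp only [List.map_append, List.map_cons, List.sum_append, List.sum_cons]
    abel
  have hlen2 : w.length + ((L₁ ++ L₂).map fun c => c.2.length).sum = nrm z := by
    rw [← hlen]
    simp only [List.map_append, List.map_cons, List.sum_append, List.sum_cons]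
    omega
  set z' := ((L₁ ++ L₂).map fun c => chn X.σ c.1 c.2).sum with hz'
  have h1 : nrm z' ≤ ((L₁ ++ L₂).map fun c => c.2.length).sum := nrm_list_sum_le X.σ _
  have h2 : nrm (chn X.σ v w) ≤ w.length := nrm_chn_le X.σ v w
  have h3 : nrm z ≤ nrm (chn X.σ v w) + nrm z' := by
    rw [hz2]
    exact nrm_add_le _ _
  have h4 : nrm (chn X.σ v w) = w.length := by omega
  have h5 : nrm (chn X.σ v w) + nrm z' ≤ nrm (chn X.σ v w + z') := by
    rw [← hz2]
    omega
  have habs : ∀ e, (chn X.σ v w e).natAbs ≤ (z e).natAbs := by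
    intro e
    rw [hz2, abs_add_of_nrm _ _ h5 e]
    exact Nat.le_add_right _ _
  have hsub : (chn X.σ v w).support ⊆ z.support := by
    intro e he
    rw [Finsupp.mem_support_iff] at he ⊢
    intro h0
    have := habs e
    rw [h0, Int.natAbs_zero, Nat.le_zero, Int.natAbs_eq_zero] at this
    exact he this
  -- the loop
  obtain ⟨y, rfl⟩ := X.surj v
  obtain ⟨k, hk⟩ := X.exists_loop y w hcl
  have hk0 : k ≠ 0 := by
    rw [X.ω_loop y w k hk] at hcω
    exact hcω
  have hwpos : 0 < w.length := List.length_pos_iff.2 hne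
  have hwQ : (0 : ℚ) < (w.length : ℚ) := by exact_mod_cast hwpos
  calc (1 : ℚ) = (w.length : ℚ) / (w.length : ℚ) := (div_self hwQ.ne').symm
    _ = ∑ e ∈ z.support, ((chn X.σ (X.π y) w e).natAbs : ℚ) / (w.length : ℚ) := by
        rw [← Finset.sum_div, ← Nat.cast_sum, ← nrm_eq_of_subset _ _ hsub, h4]
    _ ≤ ∑ e ∈ z.support, ((z e).natAbs : ℚ) / (X.l e.1 : ℚ) := by
        refine Finset.sum_le_sum fun e _ => ?_
        have hl : (0 : ℚ) < (X.l e.1 : ℚ) := by exact_mod_cast X.l_pos e.1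
        by_cases he : chn X.σ (X.π y) w e = 0
        · rw [he, Int.natAbs_zero, Nat.cast_zero, zero_div]
          positivity
        · obtain ⟨⟨i, hi, hie⟩, -⟩ := exists_take_of_chn_ne_zero X.σ _ _ e he
          have h6 := X.l_vertex_le y w k hk0 hk i hi
          rw [hie] at h6
          have h7 : (X.l e.1 : ℚ) ≤ (w.length : ℚ) := by exact_mod_cast h6
          have h8 : ((chn X.σ (X.π y) w e).natAbs : ℚ) ≤ ((z e).natAbs : ℚ) := by
            exact_mod_cast habs e
          gcongr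

end Pool.Agent.Lib.MP59b239.CE
end
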